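import Pool.Agent.helper275_flow.Exist

/-!
# Flow lattices of every rank with large Hermite invariant
-/

open Finset

set_option linter.unusedSectionVars false

namespace Pool.Agent.helper275_flow

variable {N : ℕ}

lemma cons_eta {α : Type} {m : ℕ} (s : Fin (m + 1) → α) :
    (Fin.cons (s 0) (fun e : Fin m => s e.succ) : Fin (m + 1) → α) = s := by
  funext e
  refine Fin.cases ?_ (fun e => ?_) e <;> simp

lemma nice_remove {K m : ℕ} {s t : Fin (m + 1) → Fin N} (h : Nice K s t) :
    Nice K (fun e : Fin m => s e.succ) (fun e : Fin m => t e.succ) := by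
  refine ⟨fun v => ?_, fun x hx hne => ?_⟩
  · have h1 := h.1 v
    rw [← cons_eta s, ← cons_eta t, dg_cons] at h1
    omega
  · have h1 := h.2 (Fin.cons 0 x) (by
      funext v
      rw [← cons_eta s, ← cons_eta t, bd_cons]
      simp only [Fin.cons_zero, zero_mul, zero_add, Fin.cons_succ, Pi.zero_apply]
      exact congrFun hx v) (by
      intro h0
      apply hne
      funext e
      have := congrFun h0 e.succ
      simpa using this)
    rw [Fin.sum_univ_succ] at h1
    simpa using h1

lemma finrank_remove {m : ℕ} (s t : Fin (m + 1) → Fin N) :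
    Module.finrank ℤ (LinearMap.ker (bd s t)) ≤
      Module.finrank ℤ (LinearMap.ker (bd (fun e : Fin m => s e.succ) (fun e => t e.succ))) + 1 := by
  let K0 := LinearMap.ker (bd s t)
  let f : K0 →ₗ[ℤ] ℤ := (LinearMap.proj 0).comp K0.subtype
  have h1 := rank_nullity_int f
  have h2 : Module.finrank ℤ (LinearMap.range f) ≤ 1 := by
    have := Submodule.finrank_le (LinearMap.range f)
    simpa using this
  have h3 : Module.finrank ℤ (LinearMap.ker f) ≤
      Module.finrank ℤ (LinearMap.ker (bd (fun e : Fin m => s e.succ) (fun e => t e.succ))) := by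
    let g : LinearMap.ker f →ₗ[ℤ]
        LinearMap.ker (bd (fun e : Fin m => s e.succ) (fun e => t e.succ)) :=
      { toFun := fun y => ⟨fun e => y.1.1 e.succ, by
          rw [LinearMap.mem_ker]
          funext v
          have h4 : bd s t y.1.1 v = 0 := congrFun y.1.2 v
          have h5 : y.1.1 0 = 0 := y.2
          rw [← cons_eta s, ← cons_eta t, bd_cons, h5, zero_mul, zero_add] at h4
          exact h4⟩
        map_add' := fun _ _ => rfl
        map_smul' := fun _ _ => rfl }
    apply LinearMap.finrank_le_finrank_of_injective (f := g)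
    intro y z hyz
    apply Subtype.ext
    apply Subtype.ext
    funext e
    refine Fin.cases ?_ (fun e => ?_) e
    · have h5 : y.1.1 0 = 0 := y.2
      have h6 : z.1.1 0 = 0 := z.2
      rw [h5, h6]
    · exact congrFun (congrArg Subtype.val hyz) e
  have h4 : Module.finrank ℤ K0 = Module.finrank ℤ (LinearMap.ker (bd s t)) := rfl
  omega

lemma trim {K n : ℕ} : ∀ (m : ℕ) (s t : Fin m → Fin N), Nice K s t →
    n ≤ Module.finrank ℤ (LinearMap.ker (bd s t)) →
    ∃ (m' : ℕ) (s' t' : Fin m' → Fin N), Nice K s' t' ∧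
      Module.finrank ℤ (LinearMap.ker (bd s' t')) = n := by
  intro m
  induction m with
  | zero =>
    intro s t h hn
    refine ⟨0, s, t, h, le_antisymm ?_ hn⟩
    have := Submodule.finrank_le (LinearMap.ker (bd s t))
    rw [Module.finrank_pi, Fintype.card_fin] at this
    omega
  | succ m ih =>
    intro s t h hn
    by_cases heq : Module.finrank ℤ (LinearMap.ker (bd s t)) = n
    · exact ⟨m + 1, s, t, h, heq⟩
    · apply ih _ _ (nice_remove h)
      have := finrank_remove s t
      omega

lemma rank_ge {m : ℕ} (s t : Fin m → Fin N) :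
    m ≤ Module.finrank ℤ (LinearMap.ker (bd s t)) + N := by
  have h1 := rank_nullity_int (bd s t)
  have h2 := Submodule.finrank_le (LinearMap.range (bd s t))
  rw [Module.finrank_pi] at h1 h2
  simp only [Fintype.card_fin] at h1 h2
  omega

/-- flow lattices of rank `n` with long vectors and small determinant -/
theorem exists_flow {n : ℕ} (hn : 0 < n) :
    ∃ (m : ℕ) (s t : Fin m → Fin (2 * n)) (b : Module.Basis (Fin n) ℤ (LinearMap.ker (bd s t))),
      (∀ x ∈ LinearMap.ker (bd s t), x ≠ 0 → ((Nat.log 9 n + 2 : ℕ) : ℤ) ≤ ∑ e, x e ^ 2) ∧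
      0 < (gramZ (fun i => ((b i : LinearMap.ker (bd s t)) : Fin m → ℤ))).det ∧
      ((gramZ (fun i => ((b i : LinearMap.ker (bd s t)) : Fin m → ℤ))).det : ℝ) ≤
        (8 : ℝ) ^ (2 * n) := by
  obtain ⟨m, s, t, hm, h⟩ := exists_nice (N := 2 * n) (K := Nat.log 9 n + 1) (by
    rw [Nat.add_sub_cancel]
    have := Nat.pow_log_le_self 9 hn.ne'
    omega)
  have h1 := rank_ge s t
  obtain ⟨m', s', t', h', hr⟩ := trim (n := n) m s t h (by omega)
  let b := Module.finBasisOfFinrankEq ℤ (LinearMap.ker (bd s' t')) hr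
  refine ⟨m', s', t', b, ?_, gramZ_pos b, ?_⟩
  · intro x hx hne
    have h2 := h'.2 x hx hne
    push_cast at h2 ⊢
    linarith
  · have h2 := gram_le_pow s' t' b (d := 8) (by norm_num) (by
      intro v
      have h3 := h'.1 v
      have h4 : ∑ e, inc s' t' e v ^ 2 ≤ ((dg s' t' v : ℕ) : ℤ) := by
        rw [dg]
        push_cast
        apply sum_le_sum
        intro e _
        rw [inc]
        split_ifs <;> norm_num
      refine h4.trans ?_
      exact_mod_cast h3)
    rw [Fintype.card_fin] at h2
    exact_mod_cast h2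

open scoped MatrixOrder in
lemma exists_factor {n : ℕ} {G : Matrix (Fin n) (Fin n) ℝ} (hG : G.PosSemidef) :
    ∃ A : Matrix (Fin n) (Fin n) ℝ, A.transpose * A = G := by
  obtain ⟨B, hB⟩ := CStarAlgebra.nonneg_iff_eq_star_mul_self.mp hG.nonneg
  refine ⟨B, ?_⟩
  rw [hB, Matrix.star_eq_conjTranspose, Matrix.conjTranspose_eq_transpose_of_trivial]

end Pool.Agent.helper275_flow
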