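import Mathlib

/-!
# Sparse parity checks (three per coordinate) without short solutions modulo two
-/

open Finset

namespace Pool.Agent.helper275_flow

variable {m q : ℕ}

/-- functions all of whose fibres in `S` are even -/
def evenFib (q : ℕ) (S : Finset (Fin m)) : Finset (Fin m → Fin q) :=
  univ.filter fun g => ∀ v, Even (S.filter fun e => g e = v).card

lemma card_image_of_even {S : Finset (Fin m)} {g : Fin m → Fin q} (hg : g ∈ evenFib q S) :
    2 * (S.image g).card ≤ S.card := by
  rw [evenFib, mem_filter] at hg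
  rw [card_eq_sum_card_image g S]
  calc 2 * (S.image g).card = ∑ _v ∈ S.image g, 2 := by rw [sum_const, smul_eq_mul, mul_comm]
    _ ≤ ∑ v ∈ S.image g, (S.filter fun e => g e = v).card := by
        apply sum_le_sum
        intro v hv
        obtain ⟨e, he, hev⟩ := mem_image.1 hv
        have h1 : 0 < (S.filter fun e => g e = v).card :=
          card_pos.2 ⟨e, mem_filter.2 ⟨he, hev⟩⟩
        have h2 := hg.2 v
        rcases h2 with ⟨a, ha⟩
        omega

lemma card_evenFib_le (S : Finset (Fin m)) (hq : S.card / 2 ≤ q) :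
    (evenFib q S).card ≤ q.choose (S.card / 2) * ((S.card / 2) ^ S.card * q ^ (m - S.card)) := by
  classical
  let r := S.card / 2
  have hsub : evenFib q S ⊆ (powersetCard r (univ : Finset (Fin q))).biUnion fun T =>
      Fintype.piFinset fun e : Fin m => if e ∈ S then T else univ := by
    intro g hg
    have h1 := card_image_of_even hg
    have h2 : (S.image g).card ≤ r := by
      simp only [r]; omega
    obtain ⟨T, hT1, hT2⟩ := exists_superset_card_eq h2 (by rw [Fintype.card_fin]; exact hq)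
    rw [mem_biUnion]
    refine ⟨T, mem_powersetCard.2 ⟨subset_univ _, hT2⟩, ?_⟩
    rw [Fintype.mem_piFinset]
    intro e
    split_ifs with he
    · exact hT1 (mem_image_of_mem g he)
    · exact mem_univ _
  refine (card_le_card hsub).trans ?_
  have h3 : ∀ T ∈ powersetCard r (univ : Finset (Fin q)),
      (Fintype.piFinset fun e : Fin m => if e ∈ S then T else univ).card ≤
        r ^ S.card * q ^ (m - S.card) := by
    intro T hT
    rw [Fintype.card_piFinset]
    have h4 : ∀ e : Fin m, (if e ∈ S then T else univ).card = if e ∈ S then r else q := by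
      intro e
      split_ifs with he
      · exact (mem_powersetCard.1 hT).2
      · rw [card_univ, Fintype.card_fin]
    rw [prod_congr rfl (fun e _ => h4 e), prod_ite, prod_const, prod_const, filter_mem_eq_inter,
      univ_inter, filter_not, filter_mem_eq_inter, univ_inter, card_sdiff_of_subset (subset_univ S),
      card_univ, Fintype.card_fin]
  refine (card_biUnion_le_card_mul _ _ _ h3).trans ?_
  rw [card_powersetCard, card_univ, Fintype.card_fin]

/-- the counting estimate -/
lemma ratio_bound {s : ℕ} (hs : 0 < s) (hsq : 2700 * s ≤ q) :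
    (((4 * q).choose s : ℕ) : ℝ) * (((q.choose (s / 2) * (s / 2) ^ s : ℕ) : ℝ) / (q : ℝ) ^ s) ^ 3 ≤
      (1 / 3) ^ s := by
  have hs' : (0 : ℝ) < s := by exact_mod_cast hs
  have hq0 : (0 : ℝ) < q := by
    have : 0 < q := by omega
    exact_mod_cast this
  have hsq' : 2700 * (s : ℝ) ≤ q := by exact_mod_cast hsq
  set r := s / 2 with hr
  have h2r : 2 * r ≤ s := by omega
  -- first factor
  have hA : (((4 * q).choose s : ℕ) : ℝ) ≤ (4 * Real.exp 1 * q / s) ^ s := by
    have h1 : (((4 * q).choose s : ℕ) : ℝ) ≤ ((4 * q : ℕ) : ℝ) ^ s / s.factorial :=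
      Nat.choose_le_pow_div s (4 * q)
    have h2 := Real.pow_div_factorial_le_exp (x := (s : ℝ)) hs'.le s
    have h3 : (0 : ℝ) < s.factorial := by exact_mod_cast Nat.factorial_pos s
    refine h1.trans ?_
    rw [div_le_iff₀ h3] at h2
    rw [div_le_iff₀ h3]
    have h4 : (4 * Real.exp 1 * q / s) ^ s = ((4 * q : ℕ) : ℝ) ^ s * Real.exp s / (s : ℝ) ^ s := by
      rw [div_pow, mul_pow, mul_pow, ← Real.exp_nat_mul, mul_one]
      push_cast
      ring
    rw [h4, div_mul_eq_mul_div, le_div_iff₀ (by positivity)]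
    calc ((4 * q : ℕ) : ℝ) ^ s * (s : ℝ) ^ s ≤
        ((4 * q : ℕ) : ℝ) ^ s * (Real.exp s * s.factorial) :=
          mul_le_mul_of_nonneg_left h2 (by positivity)
      _ = ((4 * q : ℕ) : ℝ) ^ s * Real.exp s * s.factorial := by ring
  -- second factor, squared
  have hB : ((((q.choose r * r ^ s : ℕ) : ℝ) / (q : ℝ) ^ s)) ^ 2 ≤
      (Real.exp 1 * s / (2 * q)) ^ s := by
    rcases Nat.eq_zero_or_pos r with h0 | h0
    · rw [h0, zero_pow hs.ne']
      simp only [mul_zero, Nat.cast_zero, zero_div, ne_eq, OfNat.ofNat_ne_zero, not_false_eq_true,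
        zero_pow]
      positivity
    · have hr0 : (0 : ℝ) < r := by exact_mod_cast h0
      have h1 : ((q.choose r : ℕ) : ℝ) ≤ (q : ℝ) ^ r / r.factorial := Nat.choose_le_pow_div r q
      have h2 := Real.pow_div_factorial_le_exp (x := (r : ℝ)) hr0.le r
      have h3 : (0 : ℝ) < r.factorial := by exact_mod_cast Nat.factorial_pos r
      have h4 : ((q.choose r * r ^ s : ℕ) : ℝ) / (q : ℝ) ^ s ≤
          Real.exp r * ((r : ℝ) / q) ^ (s - r) := by
        rw [div_le_iff₀ (by positivity)]
        push_cast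
        rw [div_le_iff₀ h3] at h2
        have h5 : ((q.choose r : ℕ) : ℝ) * (r : ℝ) ^ r ≤ (q : ℝ) ^ r * Real.exp r := by
          calc ((q.choose r : ℕ) : ℝ) * (r : ℝ) ^ r ≤
              ((q : ℝ) ^ r / r.factorial) * (Real.exp r * r.factorial) :=
                mul_le_mul h1 h2 (by positivity) (by positivity)
            _ = (q : ℝ) ^ r * Real.exp r := by field_simp
        have h6 : (r : ℝ) ^ s = (r : ℝ) ^ r * (r : ℝ) ^ (s - r) := by
          rw [← pow_add]; congr 1; omega
        have h7 : (q : ℝ) ^ s = (q : ℝ) ^ r * (q : ℝ) ^ (s - r) := by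
          rw [← pow_add]; congr 1; omega
        rw [h6, h7, div_pow]
        calc ((q.choose r : ℕ) : ℝ) * ((r : ℝ) ^ r * (r : ℝ) ^ (s - r)) =
            (((q.choose r : ℕ) : ℝ) * (r : ℝ) ^ r) * (r : ℝ) ^ (s - r) := by ring
          _ ≤ ((q : ℝ) ^ r * Real.exp r) * (r : ℝ) ^ (s - r) :=
              mul_le_mul_of_nonneg_right h5 (by positivity)
          _ = Real.exp r * ((r : ℝ) ^ (s - r) / (q : ℝ) ^ (s - r)) *
              ((q : ℝ) ^ r * (q : ℝ) ^ (s - r)) := by field_simp
      have hrs : (r : ℝ) ≤ s / 2 := by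
        have : (2 : ℝ) * r ≤ s := by exact_mod_cast h2r
        linarith
      have hrq : (r : ℝ) / q ≤ s / (2 * q) := by
        rw [div_le_div_iff₀ hq0 (by positivity)]
        nlinarith
      have hrq1 : (s : ℝ) / (2 * q) ≤ 1 := by
        rw [div_le_one (by positivity)]
        linarith
      calc (((q.choose r * r ^ s : ℕ) : ℝ) / (q : ℝ) ^ s) ^ 2
          ≤ (Real.exp r * ((r : ℝ) / q) ^ (s - r)) ^ 2 := by
            apply pow_le_pow_left₀ (by positivity) h4
        _ = Real.exp (2 * r) * ((r : ℝ) / q) ^ (2 * (s - r)) := by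
            rw [mul_pow, ← Real.exp_nat_mul, ← pow_mul]
            push_cast
            rw [mul_comm (s - r) 2]
        _ ≤ Real.exp s * (s / (2 * q)) ^ s := by
            apply mul_le_mul
            · apply Real.exp_le_exp.2
              linarith
            · calc ((r : ℝ) / q) ^ (2 * (s - r)) ≤ (s / (2 * q)) ^ (2 * (s - r)) :=
                    pow_le_pow_left₀ (by positivity) hrq _
                _ ≤ (s / (2 * q)) ^ s :=
                    pow_le_pow_of_le_one (by positivity) hrq1 (by omega)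
            · positivity
            · positivity
        _ = (Real.exp 1 * s / (2 * q)) ^ s := by
            rw [mul_div_assoc, mul_pow, ← Real.exp_nat_mul, mul_one]
  set X := ((q.choose r * r ^ s : ℕ) : ℝ) / (q : ℝ) ^ s with hX
  have hX0 : 0 ≤ X := by positivity
  have hC0 : (0 : ℝ) ≤ (((4 * q).choose s : ℕ) : ℝ) := Nat.cast_nonneg _
  -- compare squares
  have hsq2 : ((((4 * q).choose s : ℕ) : ℝ) * X ^ 3) ^ 2 ≤ ((1 / 3 : ℝ) ^ s) ^ 2 := by
    calc ((((4 * q).choose s : ℕ) : ℝ) * X ^ 3) ^ 2 =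
        (((4 * q).choose s : ℕ) : ℝ) ^ 2 * (X ^ 2) ^ 3 := by ring
      _ ≤ ((4 * Real.exp 1 * q / s) ^ s) ^ 2 * ((Real.exp 1 * s / (2 * q)) ^ s) ^ 3 := by
          apply mul_le_mul
          · exact pow_le_pow_left₀ hC0 hA 2
          · exact pow_le_pow_left₀ (by positivity) hB 3
          · positivity
          · positivity
      _ = (2 * Real.exp 1 ^ 5 * (s / q)) ^ s := by
          rw [← pow_mul, ← pow_mul, mul_comm s 2, mul_comm s 3, pow_mul, pow_mul, ← mul_pow]
          congr 1
          field_simp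
          ring
      _ ≤ (1 / 9 : ℝ) ^ s := by
          apply pow_le_pow_left₀ (by positivity)
          have he : Real.exp 1 ^ 5 ≤ 150 := by
            have h1 := Real.exp_one_lt_d9
            have h2 : Real.exp 1 ≤ 2.7182818286 := h1.le
            calc Real.exp 1 ^ 5 ≤ 2.7182818286 ^ 5 :=
                  pow_le_pow_left₀ (Real.exp_pos 1).le h2 5
              _ ≤ 150 := by norm_num
          have h3 : (s : ℝ) / q ≤ 1 / 2700 := by
            rw [div_le_div_iff₀ hq0 (by norm_num)]
            linarith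
          calc 2 * Real.exp 1 ^ 5 * (s / q) ≤ 2 * 150 * (1 / 2700) := by
                apply mul_le_mul
                · linarith
                · exact h3
                · positivity
                · norm_num
            _ ≤ 1 / 9 := by norm_num
      _ = ((1 / 3 : ℝ) ^ s) ^ 2 := by
          rw [← pow_mul, mul_comm s 2, pow_mul]
          norm_num
  exact (sq_le_sq₀ (by positivity) (by positivity)).1 hsq2

/-- **existence of good sparse parity checks** -/
theorem exists_checks (hq : 0 < q) : ∃ f : Fin 3 → Fin (4 * q) → Fin q,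
    ∀ S : Finset (Fin (4 * q)), S.Nonempty → 2700 * S.card ≤ q →
      ∃ (j : Fin 3) (v : Fin q), ¬ Even (S.filter fun e => f j e = v).card := by
  classical
  by_contra hcon
  push Not at hcon
  let M := q / 2700
  -- all functions are bad for some small set
  have hcover : (univ : Finset (Fin 3 → Fin (4 * q) → Fin q)) ⊆
      (Icc 1 M).biUnion fun s => (powersetCard s (univ : Finset (Fin (4 * q)))).biUnion fun S =>
        Fintype.piFinset fun _ : Fin 3 => evenFib q S := by
    intro f _
    obtain ⟨S, hS, hSq, hbad⟩ := hcon f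
    rw [mem_biUnion]
    refine ⟨S.card, ?_, ?_⟩
    · rw [mem_Icc]
      refine ⟨card_pos.2 hS, ?_⟩
      simp only [M]
      omega
    · rw [mem_biUnion]
      refine ⟨S, mem_powersetCard.2 ⟨subset_univ _, rfl⟩, ?_⟩
      rw [Fintype.mem_piFinset]
      intro j
      rw [evenFib, mem_filter]
      exact ⟨mem_univ _, fun v => hbad j v⟩
  have hcard : (univ : Finset (Fin 3 → Fin (4 * q) → Fin q)).card = (q ^ (4 * q)) ^ 3 := by
    rw [card_univ, Fintype.card_fun, Fintype.card_fun]
    simp
  have h1 : ((q ^ (4 * q)) ^ 3 : ℕ) ≤ ∑ s ∈ Icc 1 M, (4 * q).choose s *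
      (q.choose (s / 2) * ((s / 2) ^ s * q ^ (4 * q - s))) ^ 3 := by
    rw [← hcard]
    refine (card_le_card hcover).trans ?_
    refine card_biUnion_le.trans ?_
    apply sum_le_sum
    intro s hs
    rw [mem_Icc] at hs
    have hsM : 2700 * s ≤ q := by
      have := hs.2
      simp only [M] at this
      omega
    have h2 : ∀ S ∈ powersetCard s (univ : Finset (Fin (4 * q))),
        (Fintype.piFinset fun _ : Fin 3 => evenFib q S).card ≤
          (q.choose (s / 2) * ((s / 2) ^ s * q ^ (4 * q - s))) ^ 3 := by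
      intro S hS
      have hSc := (mem_powersetCard.1 hS).2
      rw [Fintype.card_piFinset_const]
      apply Nat.pow_le_pow_left
      have := card_evenFib_le (q := q) S (by omega)
      rwa [hSc] at this
    refine (card_biUnion_le_card_mul _ _ _ h2).trans ?_
    rw [card_powersetCard, card_univ, Fintype.card_fin]
  have hq0 : (0 : ℝ) < q := by exact_mod_cast hq
  have h3 : ((q : ℝ) ^ (4 * q)) ^ 3 ≤ ∑ s ∈ Icc 1 M, (((4 * q).choose s : ℕ) : ℝ) *
      (((q.choose (s / 2) * ((s / 2) ^ s * q ^ (4 * q - s)) : ℕ) : ℝ)) ^ 3 := by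
    exact_mod_cast h1
  have h4 : ∑ s ∈ Icc 1 M, (((4 * q).choose s : ℕ) : ℝ) *
      (((q.choose (s / 2) * ((s / 2) ^ s * q ^ (4 * q - s)) : ℕ) : ℝ)) ^ 3 ≤
      ∑ s ∈ Icc 1 M, (1 / 3 : ℝ) ^ s * ((q : ℝ) ^ (4 * q)) ^ 3 := by
    apply sum_le_sum
    intro s hs
    rw [mem_Icc] at hs
    have hsM : 2700 * s ≤ q := by
      have := hs.2
      simp only [M] at this
      omega
    have h5 := ratio_bound (q := q) hs.1 hsM
    have h6 : ((q.choose (s / 2) * ((s / 2) ^ s * q ^ (4 * q - s)) : ℕ) : ℝ) =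
        ((q.choose (s / 2) * (s / 2) ^ s : ℕ) : ℝ) / (q : ℝ) ^ s * (q : ℝ) ^ (4 * q) := by
      have h7 : (q : ℝ) ^ (4 * q) = (q : ℝ) ^ s * (q : ℝ) ^ (4 * q - s) := by
        rw [← pow_add]; congr 1; omega
      rw [h7]
      push_cast
      field_simp
    rw [h6]
    calc (((4 * q).choose s : ℕ) : ℝ) * (((q.choose (s / 2) * (s / 2) ^ s : ℕ) : ℝ) /
          (q : ℝ) ^ s * (q : ℝ) ^ (4 * q)) ^ 3 =
        ((((4 * q).choose s : ℕ) : ℝ) * (((q.choose (s / 2) * (s / 2) ^ s : ℕ) : ℝ) /
          (q : ℝ) ^ s) ^ 3) * ((q : ℝ) ^ (4 * q)) ^ 3 := by ring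
      _ ≤ (1 / 3 : ℝ) ^ s * ((q : ℝ) ^ (4 * q)) ^ 3 :=
          mul_le_mul_of_nonneg_right h5 (by positivity)
  have h8 : ∑ s ∈ Icc 1 M, (1 / 3 : ℝ) ^ s ≤ 1 / 2 := by
    have h10 : ∀ N : ℕ, ∑ s ∈ Icc 1 N, (1 / 3 : ℝ) ^ s = (1 - (1 / 3) ^ N) / 2 := by
      intro N
      induction N with
      | zero => simp
      | succ N ih =>
        rw [Finset.sum_Icc_succ_top (by omega), ih, pow_succ]
        ring
    rw [h10]
    have : (0 : ℝ) < (1 / 3) ^ M := by positivity
    linarith
  have h11 : (0 : ℝ) < ((q : ℝ) ^ (4 * q)) ^ 3 := by positivity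
  rw [← sum_mul] at h4
  nlinarith

end Pool.Agent.helper275_flow
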