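import Pool.Agent.helper275_flow.DualA
import Pool.Agent.helper275_flow.Rand
import Pool.Agent.helper275_flow.Lower

/-!
# Kernels of 0-1 matrices with three ones per column with linear Hermite invariant
-/

open Finset

set_option linter.unusedSectionVars false

namespace Pool.Agent.helper275_flow

/-- columns with at most three nonzero entries, all equal to one -/
def Col3 {p : ℕ} (c : Fin p → ℤ) : Prop := (∀ v, c v = 0 ∨ c v = 1) ∧ ∑ v, c v ≤ 3

/-- all solutions are long and the columns are as in `Col3` -/
def Nice3 (q : ℕ) {p m : ℕ} (a : Fin m → Fin p → ℤ) : Prop :=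
  (∀ e, Col3 (a e)) ∧ ∀ x : Fin m → ℤ, bdA a x = 0 → x ≠ 0 → (q : ℤ) ≤ 2700 * ∑ e, x e ^ 2

lemma bdA_succ {p m : ℕ} (a : Fin (m + 1) → Fin p → ℤ) (x : Fin (m + 1) → ℤ) (v : Fin p) :
    bdA a x v = x 0 * a 0 v + bdA (fun e : Fin m => a e.succ) (fun e => x e.succ) v := by
  rw [bdA_apply, Fin.sum_univ_succ, bdA_apply]

lemma nice3_remove {q p m : ℕ} {a : Fin (m + 1) → Fin p → ℤ} (h : Nice3 q a) :
    Nice3 q (fun e : Fin m => a e.succ) := by
  refine ⟨fun e => h.1 _, fun x hx hne => ?_⟩
  have h1 := h.2 (Fin.cons 0 x) (by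
    funext v
    rw [bdA_succ]
    simp only [Fin.cons_zero, zero_mul, zero_add, Fin.cons_succ, Pi.zero_apply]
    exact congrFun hx v) (by
    intro h0
    apply hne
    funext e
    have := congrFun h0 e.succ
    simpa using this)
  rw [Fin.sum_univ_succ] at h1
  simpa using h1

lemma finrank_remove3 {p m : ℕ} (a : Fin (m + 1) → Fin p → ℤ) :
    Module.finrank ℤ (LinearMap.ker (bdA a)) ≤
      Module.finrank ℤ (LinearMap.ker (bdA (fun e : Fin m => a e.succ))) + 1 := by
  let K0 := LinearMap.ker (bdA a)
  let f : K0 →ₗ[ℤ] ℤ := (LinearMap.proj 0).comp K0.subtype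
  have h1 := rank_nullity_int f
  have h2 : Module.finrank ℤ (LinearMap.range f) ≤ 1 := by
    have := Submodule.finrank_le (LinearMap.range f)
    simpa using this
  have h3 : Module.finrank ℤ (LinearMap.ker f) ≤
      Module.finrank ℤ (LinearMap.ker (bdA (fun e : Fin m => a e.succ))) := by
    let g : LinearMap.ker f →ₗ[ℤ] LinearMap.ker (bdA (fun e : Fin m => a e.succ)) :=
      { toFun := fun y => ⟨fun e => y.1.1 e.succ, by
          rw [LinearMap.mem_ker]
          funext v
          have h4 : bdA a y.1.1 v = 0 := congrFun y.1.2 v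
          have h5 : y.1.1 0 = 0 := y.2
          rw [bdA_succ, h5, zero_mul, zero_add] at h4
          exact h4⟩
        map_add' := fun _ _ => rfl
        map_smul' := fun _ _ => rfl }
    apply LinearMap.finrank_le_finrank_of_injective (f := g)
    intro y z hyz
    apply Subtype.ext
    apply Subtype.ext
    funext e
    refine Fin.cases ?_ (fun e => ?_) e
    · have h5 : y.1.1 0 = 0 := y.2
      have h6 : z.1.1 0 = 0 := z.2
      rw [h5, h6]
    · exact congrFun (congrArg Subtype.val hyz) e
  have h4 : Module.finrank ℤ K0 = Module.finrank ℤ (LinearMap.ker (bdA a)) := rfl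
  omega

lemma trim3 {q p n : ℕ} : ∀ (m : ℕ) (a : Fin m → Fin p → ℤ), Nice3 q a →
    n ≤ Module.finrank ℤ (LinearMap.ker (bdA a)) →
    ∃ (m' : ℕ) (a' : Fin m' → Fin p → ℤ), m' ≤ m ∧ Nice3 q a' ∧
      Module.finrank ℤ (LinearMap.ker (bdA a')) = n := by
  intro m
  induction m with
  | zero =>
    intro a h hn
    refine ⟨0, a, le_rfl, h, le_antisymm ?_ hn⟩
    have := Submodule.finrank_le (LinearMap.ker (bdA a))
    rw [Module.finrank_pi, Fintype.card_fin] at this
    omega
  | succ m ih =>
    intro a h hn
    by_cases heq : Module.finrank ℤ (LinearMap.ker (bdA a)) = n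
    · exact ⟨m + 1, a, le_rfl, h, heq⟩
    · have := finrank_remove3 a
      obtain ⟨m', a', h1, h2, h3⟩ := ih _ (nice3_remove h) (by omega)
      exact ⟨m', a', by omega, h2, h3⟩

lemma rank_ge3 {p m : ℕ} (a : Fin m → Fin p → ℤ) :
    m ≤ Module.finrank ℤ (LinearMap.ker (bdA a)) + p := by
  have h1 := rank_nullity_int (bdA a)
  have h2 := Submodule.finrank_le (LinearMap.range (bdA a))
  rw [Module.finrank_pi] at h1 h2
  simp only [Fintype.card_fin] at h1 h2
  omega

/-- no nonzero solution with few odd coordinates, hence no short solution -/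
lemma long_of_odd {p m q : ℕ} {a : Fin m → Fin p → ℤ}
    (h : ∀ S : Finset (Fin m), S.Nonempty → 2700 * S.card ≤ q →
      ∃ v, ¬ Even (∑ e ∈ S, a e v)) :
    ∀ (N : ℕ) (x : Fin m → ℤ), ∑ e, x e ^ 2 = N → bdA a x = 0 → x ≠ 0 →
      (q : ℤ) ≤ 2700 * ∑ e, x e ^ 2 := by
  intro N
  induction N using Nat.strong_induction_on with
  | _ N ih =>
    intro x hN hx hne
    let S : Finset (Fin m) := univ.filter fun e => ¬ Even (x e)
    by_cases hS : S.Nonempty
    · by_contra hlt
      push Not at hlt
      have hSc : (S.card : ℤ) ≤ ∑ e, x e ^ 2 := by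
        calc (S.card : ℤ) = ∑ _e ∈ S, 1 := by simp
          _ ≤ ∑ e ∈ S, x e ^ 2 := by
              apply sum_le_sum
              intro e he
              have h1 : x e ≠ 0 := by
                intro h0
                have := (mem_filter.1 he).2
                rw [h0] at this
                exact this (by simp)
              have h2 : 0 < x e ^ 2 := by positivity
              omega
          _ ≤ ∑ e, x e ^ 2 := sum_le_sum_of_subset_of_nonneg (subset_univ _)
              fun e _ _ => sq_nonneg _
      obtain ⟨v, hv⟩ := h S hS (by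
        have : (2700 * (S.card : ℤ)) ≤ q := by linarith
        exact_mod_cast this)
      apply hv
      have h1 : ∑ e, x e * a e v = 0 := congrFun hx v
      have h2 : ∀ e, ((x e : ℤ) : ZMod 2) = if e ∈ S then 1 else 0 := by
        intro e
        by_cases he : Even (x e)
        · have h3 : e ∉ S := fun h' => (mem_filter.1 h').2 he
          rw [if_neg h3]
          rw [ZMod.intCast_zmod_eq_zero_iff_dvd]
          exact_mod_cast even_iff_two_dvd.1 he
        · have h3 : e ∈ S := mem_filter.2 ⟨mem_univ _, he⟩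
          rw [if_pos h3]
          obtain ⟨k, hk⟩ := Int.not_even_iff_odd.1 he
          rw [hk]
          push_cast
          have : (2 : ZMod 2) = 0 := by decide
          rw [this, zero_mul, zero_add]
      have h3 : ((∑ e ∈ S, a e v : ℤ) : ZMod 2) = 0 := by
        have h4 := congrArg (fun z : ℤ => (z : ZMod 2)) h1
        simp only [Int.cast_sum, Int.cast_mul, Int.cast_zero] at h4
        rw [sum_congr rfl (fun e _ => by rw [h2 e])] at h4
        simp only [ite_mul, one_mul, zero_mul, sum_ite_mem, univ_inter] at h4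
        push_cast
        exact h4
      rw [ZMod.intCast_zmod_eq_zero_iff_dvd] at h3
      exact even_iff_two_dvd.2 (by exact_mod_cast h3)
    · rw [not_nonempty_iff_eq_empty] at hS
      have hev : ∀ e, Even (x e) := by
        intro e
        by_contra he
        have : e ∈ S := mem_filter.2 ⟨mem_univ _, he⟩
        rw [hS] at this
        exact absurd this (notMem_empty _)
      choose y hy using fun e => even_iff_two_dvd.1 (hev e)
      have hsum : ∑ e, x e ^ 2 = 4 * ∑ e, y e ^ 2 := by
        rw [mul_sum]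
        apply sum_congr rfl
        intro e _
        rw [hy e]
        ring
      have hy0 : y ≠ 0 := by
        rintro rfl
        apply hne
        funext e
        rw [hy e]
        simp
      have hypos : 0 < ∑ e, y e ^ 2 := by
        obtain ⟨e, he⟩ : ∃ e, y e ≠ 0 := by
          by_contra h'
          push Not at h'
          exact hy0 (funext h')
        have h5 : 0 < y e ^ 2 := by positivity
        have h6 : y e ^ 2 ≤ ∑ e, y e ^ 2 :=
          single_le_sum (f := fun e => y e ^ 2) (fun e _ => sq_nonneg _) (mem_univ e)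
        linarith
      have hyker : bdA a y = 0 := by
        funext v
        have h1 : ∑ e, x e * a e v = 0 := congrFun hx v
        have h5 : ∑ e, x e * a e v = 2 * ∑ e, y e * a e v := by
          rw [mul_sum]
          apply sum_congr rfl
          intro e _
          rw [hy e]
          ring
        rw [bdA_apply, Pi.zero_apply]
        omega
      have h5 := ih (∑ e, y e ^ 2).toNat (by
        have : ((∑ e, y e ^ 2).toNat : ℤ) = ∑ e, y e ^ 2 := Int.toNat_of_nonneg hypos.le
        have h7 : ((∑ e, y e ^ 2).toNat : ℤ) < N := by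
          rw [this, ← hN, hsum]
          linarith
        exact_mod_cast h7) y (Int.toNat_of_nonneg hypos.le).symm hyker hy0
      linarith

/-- the matrices -/
theorem exists_nice3 {q : ℕ} (hq : 0 < q) :
    ∃ a : Fin (4 * q) → Fin (3 * q) → ℤ, Nice3 q a := by
  obtain ⟨f, hf⟩ := exists_checks hq
  let a : Fin (4 * q) → Fin (3 * q) → ℤ := fun e v =>
    if f (finProdFinEquiv.symm v).1 e = (finProdFinEquiv.symm v).2 then 1 else 0
  refine ⟨a, fun e => ⟨fun v => ?_, ?_⟩, ?_⟩
  · simp only [a]
    split_ifs
    · exact Or.inr rfl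
    · exact Or.inl rfl
  · have h1 : ∑ v, a e v = ∑ jv : Fin 3 × Fin q, if f jv.1 e = jv.2 then (1 : ℤ) else 0 := by
      rw [← finProdFinEquiv.sum_comp]
      simp only [a, Equiv.symm_apply_apply]
    rw [h1, Fintype.sum_prod_type]
    simp
  · intro x hx hne
    have h0 : 0 ≤ ∑ e, x e ^ 2 := sum_nonneg fun e _ => sq_nonneg _
    refine long_of_odd ?_ (∑ e, x e ^ 2).toNat x (Int.toNat_of_nonneg h0).symm hx hne
    intro S hS hSq
    obtain ⟨j, v, hv⟩ := hf S hS hSq
    refine ⟨finProdFinEquiv (j, v), fun h => hv ?_⟩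
    have h2 : ∑ e ∈ S, a e (finProdFinEquiv (j, v)) =
        (((S.filter fun e => f j e = v).card : ℕ) : ℤ) := by
      rw [card_filter]
      push_cast
      apply sum_congr rfl
      intro e _
      simp only [a, Equiv.symm_apply_apply]
    rw [h2] at h
    exact_mod_cast h

/-- the determinant is at most exponential -/
theorem gramA_le_exp {p m n : ℕ} {a : Fin m → Fin p → ℤ} (ha : ∀ e, Col3 (a e))
    (b : Module.Basis (Fin n) ℤ (LinearMap.ker (bdA a))) :
    ((gramZ (fun i => ((b i : LinearMap.ker (bdA a)) : Fin m → ℤ))).det : ℝ) ≤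
      Real.exp (3 * m) := by
  obtain ⟨k, I, hI, h⟩ := gramA_le_star a b
  let Q : Matrix (Fin k) (Fin m) ℝ := Matrix.of fun i e => (a e (I i) : ℝ)
  have hQ : (Matrix.of fun i j : Fin k => ∑ e, a e (I i) * a e (I j)).map
      (fun z : ℤ => (z : ℝ)) = Q * Q.conjTranspose := by
    ext i j
    simp [Q, Matrix.mul_apply]
  have hdet : (((Matrix.of fun i j : Fin k =>
      ∑ e, a e (I i) * a e (I j)).det : ℤ) : ℝ) = (Q * Q.conjTranspose).det := by
    rw [← hQ]
    have := (Int.castRingHom ℝ).map_det
      (Matrix.of fun i j : Fin k => ∑ e, a e (I i) * a e (I j))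
    simpa using this
  have hM := Matrix.posSemidef_self_mul_conjTranspose Q
  have h1 : (Q * Q.conjTranspose).det = ∏ i, hM.isHermitian.eigenvalues i := by
    have := hM.isHermitian.det_eq_prod_eigenvalues
    simpa using this
  have h2 : (Q * Q.conjTranspose).trace = ∑ i, hM.isHermitian.eigenvalues i := by
    have := hM.isHermitian.trace_eq_sum_eigenvalues
    simpa using this
  have h3 : (Q * Q.conjTranspose).trace ≤ 3 * m := by
    rw [Matrix.trace]
    have h4 : ∀ i, (Q * Q.conjTranspose).diag i = ((∑ e, a e (I i) : ℤ) : ℝ) := by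
      intro i
      rw [Matrix.diag_apply, Matrix.mul_apply]
      push_cast
      apply sum_congr rfl
      intro e _
      simp only [Q, Matrix.of_apply, Matrix.conjTranspose_apply, star_trivial]
      rcases (ha e).1 (I i) with h5 | h5 <;> rw [h5] <;> norm_num
    rw [sum_congr rfl (fun i _ => h4 i)]
    have h6 : ∑ i, ∑ e, a e (I i) ≤ 3 * (m : ℤ) := by
      rw [sum_comm]
      calc ∑ e, ∑ i, a e (I i) ≤ ∑ _e : Fin m, (3 : ℤ) := by
            apply sum_le_sum
            intro e _
            refine le_trans ?_ (ha e).2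
            calc ∑ i, a e (I i) = ∑ v ∈ univ.image I, a e v := by
                  rw [sum_image (fun i _ j _ hij => hI hij)]
              _ ≤ ∑ v, a e v := by
                  apply sum_le_sum_of_subset_of_nonneg (subset_univ _)
                  intro v _ _
                  rcases (ha e).1 v with h5 | h5 <;> rw [h5] <;> norm_num
        _ = 3 * (m : ℤ) := by simp [mul_comm]
    exact_mod_cast h6
  calc ((gramZ (fun i => ((b i : LinearMap.ker (bdA a)) : Fin m → ℤ))).det : ℝ)
      ≤ (((Matrix.of fun i j : Fin k =>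
      ∑ e, a e (I i) * a e (I j)).det : ℤ) : ℝ) := by exact_mod_cast h
    _ = ∏ i, hM.isHermitian.eigenvalues i := by rw [hdet, h1]
    _ ≤ ∏ i, Real.exp (hM.isHermitian.eigenvalues i) := by
        apply prod_le_prod (fun i _ => hM.eigenvalues_nonneg i)
        intro i _
        have := Real.add_one_le_exp (hM.isHermitian.eigenvalues i)
        linarith
    _ = Real.exp ((Q * Q.conjTranspose).trace) := by rw [h2, Real.exp_sum]
    _ ≤ Real.exp (3 * m) := Real.exp_le_exp.2 h3

/-- kernels of rank `n` with long vectors and small determinant -/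
theorem exists_linear {n : ℕ} (hn : 0 < n) :
    ∃ (m : ℕ) (a : Fin m → Fin (3 * n) → ℤ)
      (b : Module.Basis (Fin n) ℤ (LinearMap.ker (bdA a))), (∀ e, Col3 (a e)) ∧
      (∀ x ∈ LinearMap.ker (bdA a), x ≠ 0 → (n : ℤ) ≤ 2700 * ∑ e, x e ^ 2) ∧
      0 < (gramZ (fun i => ((b i : LinearMap.ker (bdA a)) : Fin m → ℤ))).det ∧
      ((gramZ (fun i => ((b i : LinearMap.ker (bdA a)) : Fin m → ℤ))).det : ℝ) ≤
        Real.exp (12 * n) := by
  obtain ⟨a, ha⟩ := exists_nice3 hn
  have h1 := rank_ge3 a
  obtain ⟨m', a', hm', h', hr⟩ := trim3 (n := n) _ a ha (by omega)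
  let b := Module.finBasisOfFinrankEq ℤ (LinearMap.ker (bdA a')) hr
  refine ⟨m', a', b, h'.1, fun x hx hne => h'.2 x hx hne, gramZ_pos b, ?_⟩
  refine (gramA_le_exp h'.1 b).trans ?_
  apply Real.exp_le_exp.2
  have : (m' : ℝ) ≤ 4 * n := by exact_mod_cast hm'
  linarith

end Pool.Agent.helper275_flow
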