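import Pool.Agent.helper275_flow.Det

/-!
# Short flows in weighted graphs, in terms of the Gram determinant
-/

open Finset

set_option linter.unusedSectionVars false

namespace Pool.Agent.helper275_flow

variable {V E : Type} [Fintype V] [DecidableEq V] [Fintype E] [DecidableEq E]

lemma log_card_pos (h : 0 < Fintype.card E) : (1 : ℝ) / 2 < Real.log ((Fintype.card E : ℝ) + 1) := by
  have h1 : (2 : ℝ) ≤ (Fintype.card E : ℝ) + 1 := by
    have : (1 : ℝ) ≤ (Fintype.card E : ℝ) := by exact_mod_cast h
    linarith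
  have h2 := Real.log_le_log (by norm_num) h1
  have h3 := Real.log_two_gt_d9
  linarith

/-- the number of independent flows on light edges -/
lemma light_le {s t : E → V} {w : E → ℝ} {g : ℝ} (hg : 0 < g)
    (hmin : ∀ x ∈ FA s t univ, x ≠ 0 → g ≤ ∑ e, w e * (x e : ℝ) ^ 2)
    (hE : 0 < Fintype.card E) {τ : ℝ} (hτ : 0 < τ) :
    (Module.finrank ℤ (KT (FA s t univ) w τ) : ℝ) ≤
      τ / (g / (144 * (Fintype.card E : ℝ) * Real.log ((Fintype.card E : ℝ) + 1))) := by
  classical
  set m : ℝ := (Fintype.card E : ℝ) with hm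
  set L : ℝ := Real.log (m + 1) with hL
  have hL0 : 1 / 2 < L := log_card_pos hE
  have hm1 : 1 ≤ m := by rw [hm]; exact_mod_cast hE
  let A : Finset E := univ.filter fun e => w e ≤ τ
  have hAm : (A.card : ℝ) ≤ m := by
    rw [hm]
    exact_mod_cast card_le_univ A
  have hKA : KT (FA s t univ) w τ ≤ FA s t A := by
    intro x hx
    refine ⟨fun e he => ?_, hx.1.2⟩
    apply hx.2
    by_contra h
    apply he
    rw [mem_filter]
    exact ⟨mem_univ _, not_lt.1 h⟩
  have hfin : Module.finrank ℤ (KT (FA s t univ) w τ) ≤ Module.finrank ℤ (FA s t A) :=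
    Submodule.finrank_mono hKA
  have hfin' : (Module.finrank ℤ (KT (FA s t univ) w τ) : ℝ) ≤ Module.finrank ℤ (FA s t A) := by
    exact_mod_cast hfin
  have htriv : (Module.finrank ℤ (FA s t A) : ℝ) ≤ m := by
    refine le_trans ?_ hAm
    exact_mod_cast finrank_FA_le s t A
  have hrw : τ / (g / (144 * m * L)) = 144 * m * L * τ / g := by
    field_simp
  rw [hrw]
  refine hfin'.trans ?_
  rw [le_div_iff₀ hg]
  have hmL : 0 < m * L := by nlinarith
  by_cases hcase : g < 12 * τ
  · calc (Module.finrank ℤ (FA s t A) : ℝ) * g ≤ m * (12 * τ) := by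
          apply mul_le_mul htriv hcase.le hg.le (by linarith)
      _ ≤ 144 * m * L * τ := by
          have : 0 < m * τ := by positivity
          nlinarith
  · push Not at hcase
    let R : ℕ := ⌊g / (12 * τ)⌋₊
    have hq1 : 1 ≤ g / (12 * τ) := by
      rw [le_div_iff₀ (by positivity)]
      linarith
    have hR1 : 1 ≤ R := Nat.le_floor (by exact_mod_cast hq1)
    have hR1' : (1 : ℝ) ≤ R := by exact_mod_cast hR1
    have hRle : (R : ℝ) ≤ g / (12 * τ) := Nat.floor_le (by positivity)
    have hRlt : g / (12 * τ) < (R : ℝ) + 1 := Nat.lt_floor_add_one _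
    have hRle' : (R : ℝ) * (12 * τ) ≤ g := by
      rwa [le_div_iff₀ (by positivity)] at hRle
    have hRlt' : g < (2 * R) * (12 * τ) := by
      rw [div_lt_iff₀ (by positivity)] at hRlt
      nlinarith
    by_cases hε1 : 3 * L / R < 1
    · have hε0 : 0 < 3 * L / R := by positivity
      have hpow : (A.card : ℝ) + 1 < (1 + 3 * L / R) ^ R := by
        have h1 : (3 * L / R) / 2 ≤ Real.log (1 + 3 * L / R) := by
          have h2 := Real.one_sub_inv_le_log_of_pos (x := 1 + 3 * L / R) (by linarith)
          refine le_trans ?_ h2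
          have h3 : 1 - (1 + 3 * L / R)⁻¹ = (3 * L / R) / (1 + 3 * L / R) := by
            have : (1 + 3 * L / R) ≠ 0 := by linarith
            field_simp
            ring
          rw [h3]
          apply div_le_div_of_nonneg_left hε0.le (by linarith) (by linarith)
        have h4 : Real.log ((A.card : ℝ) + 1) ≤ L := by
          apply Real.log_le_log
          · positivity
          · linarith
        have h5 : Real.log ((A.card : ℝ) + 1) < Real.log ((1 + 3 * L / R) ^ R) := by
          rw [Real.log_pow]
          have h6 : (R : ℝ) * ((3 * L / R) / 2) ≤ R * Real.log (1 + 3 * L / R) :=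
            mul_le_mul_of_nonneg_left h1 (by positivity)
          have h7 : (R : ℝ) * ((3 * L / R) / 2) = 3 / 2 * L := by
            field_simp
          rw [h7] at h6
          linarith
        exact (Real.log_lt_log_iff (by positivity) (by positivity)).1 h5
      have hH : ∀ x ∈ FA s t A, x ≠ 0 → 3 * (2 * (R : ℤ) + 1) < ∑ e, x e ^ 2 := by
        intro x hx hne
        have h1 := hmin x (FA_mono (subset_univ A) hx) hne
        have h2 : ∑ e, w e * (x e : ℝ) ^ 2 ≤ τ * ∑ e, (x e : ℝ) ^ 2 := by
          rw [mul_sum]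
          apply sum_le_sum
          intro e _
          by_cases he : e ∈ A
          · exact mul_le_mul_of_nonneg_right (mem_filter.1 he).2 (sq_nonneg _)
          · rw [hx.1 e he]
            simp
        have h3 : (R : ℝ) * 12 ≤ ∑ e, (x e : ℝ) ^ 2 := by
          by_contra hcon
          push Not at hcon
          nlinarith
        have h4 : (R : ℤ) * 12 ≤ ∑ e, x e ^ 2 := by exact_mod_cast h3
        have h5 : (1 : ℤ) ≤ R := by exact_mod_cast hR1
        linarith
      have h := nullity_le' hε0 hε1 hpow hH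
      have h8 : 2 * (3 * L / R) * (A.card : ℝ) ≤ 2 * (3 * L / R) * m :=
        mul_le_mul_of_nonneg_left hAm (by positivity)
      calc (Module.finrank ℤ (FA s t A) : ℝ) * g ≤ (2 * (3 * L / R) * m) * (2 * R * (12 * τ)) :=
            mul_le_mul (h.trans h8) hRlt'.le hg.le (by positivity)
        _ = 144 * m * L * τ := by
            field_simp
            ring
    · push Not at hε1
      rw [le_div_iff₀ (by positivity), one_mul] at hε1
      calc (Module.finrank ℤ (FA s t A) : ℝ) * g ≤ m * ((2 * (3 * L)) * (12 * τ)) := by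
            apply mul_le_mul htriv _ hg.le (by linarith)
            refine hRlt'.le.trans ?_
            apply mul_le_mul_of_nonneg_right _ (by positivity)
            linarith
        _ ≤ 144 * m * L * τ := by
            have : 0 < m * L * τ := by positivity
            nlinarith

/-- coordinates of a basis are independent -/
lemma basis_inj {K : Submodule ℤ (E → ℤ)} {r : ℕ} (b : Module.Basis (Fin r) ℤ K) {S : Finset E}
    (hS : ∀ x ∈ K, (∀ e ∈ S, x e = 0) → x = 0) (c : Fin r → ℤ)
    (hc : ∀ e ∈ S, ∑ i, c i * ((b i : K) : E → ℤ) e = 0) : c = 0 := by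
  have h1 : ((∑ i, c i • b i : K) : E → ℤ) = 0 := by
    apply hS _ (Subtype.mem _)
    intro e he
    rw [← hc e he, Submodule.coe_sum, Finset.sum_apply]
    apply sum_congr rfl
    intro i _
    rfl
  have h2 : (∑ i, c i • b i : K) = 0 := Subtype.ext h1
  have h3 := Fintype.linearIndependent_iff.1 b.linearIndependent c h2
  funext i
  exact h3 i

/-- the bound in terms of the number of edges -/
theorem core {s t : E → V} {w : E → ℝ} (hw : ∀ e, 0 < w e) {r : ℕ} (hr : 0 < r)
    (b : Module.Basis (Fin r) ℤ (FA s t univ)) {g : ℝ} (hg : 0 < g)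
    (hmin : ∀ x ∈ FA s t univ, x ≠ 0 → g ≤ ∑ e, w e * (x e : ℝ) ^ 2) :
    g * r ≤ 144 * Real.exp 1 * (Fintype.card E : ℝ) * Real.log ((Fintype.card E : ℝ) + 1) *
      (gramT w (fun i => ((b i : FA s t univ) : E → ℤ)) univ).det ^ ((1 : ℝ) / r) := by
  classical
  have hfr : Module.finrank ℤ (FA s t univ) = r := by
    rw [Module.finrank_eq_card_basis b, Fintype.card_fin]
  have hE : 0 < Fintype.card E := by
    have h1 := finrank_FA_le s t (univ : Finset E)
    rw [hfr, card_univ] at h1
    omega
  obtain ⟨S, hS1, hS2, hS3⟩ := exists_greedy w r (FA s t univ) hfr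
  have hS4 : r ≤ S.card := by
    let f : FA s t univ →ₗ[ℤ] (S → ℤ) :=
      { toFun := fun x e => (x : E → ℤ) e
        map_add' := fun _ _ => rfl
        map_smul' := fun _ _ => rfl }
    have h1 : Function.Injective f := by
      rw [← LinearMap.ker_eq_bot, LinearMap.ker_eq_bot']
      intro x hx
      apply Subtype.ext
      apply hS2 _ x.2
      intro e he
      exact congrFun hx ⟨e, he⟩
    have h2 := LinearMap.finrank_le_finrank_of_injective h1
    rw [hfr, Module.finrank_pi, Fintype.card_coe] at h2
    exact h2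
  have hS : S.card = r := le_antisymm hS1 hS4
  set m : ℝ := (Fintype.card E : ℝ) with hm
  set L : ℝ := Real.log (m + 1) with hL
  have hL0 : 1 / 2 < L := log_card_pos hE
  have hm1 : 1 ≤ m := by rw [hm]; exact_mod_cast hE
  have hr' : (0 : ℝ) < r := by exact_mod_cast hr
  set κ : ℝ := g / (144 * m * L) with hκ
  have hκ0 : 0 < κ := by positivity
  have h1 : κ ^ r * (r.factorial : ℝ) ≤ ∏ e ∈ S, w e := by
    apply prod_ge hκ0 r S hS _ (fun e _ => hw e)
    intro τ hτ
    refine le_trans ?_ (light_le hg hmin hE hτ)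
    exact_mod_cast hS3 τ
  have h2 := det_gram_ge hw hS (b := fun i => ((b i : FA s t univ) : E → ℤ))
    (basis_inj b hS2)
  set D := (gramT w (fun i => ((b i : FA s t univ) : E → ℤ)) univ).det with hD
  have h3 : (κ * r / Real.exp 1) ^ r ≤ D := by
    refine le_trans ?_ (h1.trans h2)
    have h4 := Real.pow_div_factorial_le_exp (x := (r : ℝ)) hr'.le r
    rw [div_le_iff₀ (by positivity)] at h4
    rw [div_pow, mul_pow, div_le_iff₀ (by positivity), ← Real.exp_nat_mul, mul_one]
    calc κ ^ r * (r : ℝ) ^ r ≤ κ ^ r * (Real.exp r * r.factorial) :=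
          mul_le_mul_of_nonneg_left h4 (by positivity)
      _ = κ ^ r * r.factorial * Real.exp r := by ring
  have h4 : κ * r / Real.exp 1 ≤ D ^ ((1 : ℝ) / r) := by
    have h5 : ((κ * r / Real.exp 1) ^ r) ^ ((1 : ℝ) / r) ≤ D ^ ((1 : ℝ) / r) :=
      Real.rpow_le_rpow (by positivity) h3 (by positivity)
    rw [one_div, Real.pow_rpow_inv_natCast (by positivity) hr.ne'] at h5
    rw [one_div]
    exact h5
  have h5 : κ * r ≤ Real.exp 1 * D ^ ((1 : ℝ) / r) := by
    rw [div_le_iff₀ (Real.exp_pos 1)] at h4
    linarith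
  have h6 : g = κ * (144 * m * L) := by
    rw [hκ]
    field_simp
  calc g * r = (144 * m * L) * (κ * r) := by rw [h6]; ring
    _ ≤ (144 * m * L) * (Real.exp 1 * D ^ ((1 : ℝ) / r)) :=
        mul_le_mul_of_nonneg_left h5 (by positivity)
    _ = 144 * Real.exp 1 * m * L * D ^ ((1 : ℝ) / r) := by ring

end Pool.Agent.helper275_flow
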