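import Pool.Agent.helper275_flow.Growing

/-!
# Greedy coordinate sets and Gram determinants
-/

open Finset

set_option linter.unusedSectionVars false

namespace Pool.Agent.helper275_flow

section greedy

variable {E : Type} [Fintype E] [DecidableEq E]

/-- vectors of `K` supported on coordinates of weight at most `t` -/
def KT (K : Submodule ℤ (E → ℤ)) (w : E → ℝ) (t : ℝ) : Submodule ℤ (E → ℤ) where
  carrier := {x | x ∈ K ∧ ∀ e, t < w e → x e = 0}
  zero_mem' := ⟨K.zero_mem, fun _ _ => rfl⟩
  add_mem' := by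
    rintro x y ⟨hx, hx'⟩ ⟨hy, hy'⟩
    exact ⟨K.add_mem hx hy, fun e he => by rw [Pi.add_apply, hx' e he, hy' e he, add_zero]⟩
  smul_mem' := by
    rintro c x ⟨hx, hx'⟩
    exact ⟨K.smul_mem c hx, fun e he => by rw [Pi.smul_apply, hx' e he, smul_zero]⟩

lemma mem_KT {K : Submodule ℤ (E → ℤ)} {w : E → ℝ} {t : ℝ} {x : E → ℤ} :
    x ∈ KT K w t ↔ x ∈ K ∧ ∀ e, t < w e → x e = 0 := Iff.rfl

/-- coordinate hyperplane section -/
def KH (K : Submodule ℤ (E → ℤ)) (e : E) : Submodule ℤ (E → ℤ) where
  carrier := {x | x ∈ K ∧ x e = 0}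
  zero_mem' := ⟨K.zero_mem, rfl⟩
  add_mem' := by
    rintro x y ⟨hx, hx'⟩ ⟨hy, hy'⟩
    exact ⟨K.add_mem hx hy, by rw [Pi.add_apply, hx', hy', add_zero]⟩
  smul_mem' := by
    rintro c x ⟨hx, hx'⟩
    exact ⟨K.smul_mem c hx, by rw [Pi.smul_apply, hx', smul_zero]⟩

lemma mem_KH {K : Submodule ℤ (E → ℤ)} {e : E} {x : E → ℤ} :
    x ∈ KH K e ↔ x ∈ K ∧ x e = 0 := Iff.rfl

lemma finrank_KH_lt {K : Submodule ℤ (E → ℤ)} {e : E} {x : E → ℤ} (hx : x ∈ K) (hxe : x e ≠ 0) :
    Module.finrank ℤ (KH K e) + 1 ≤ Module.finrank ℤ K := by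
  let f : K →ₗ[ℤ] ℤ := (LinearMap.proj e).comp K.subtype
  have h1 := rank_nullity_int f
  have h2 : 0 < Module.finrank ℤ (LinearMap.range f) := by
    have hne : (⟨f ⟨x, hx⟩, ⟨⟨x, hx⟩, rfl⟩⟩ : LinearMap.range f) ≠ 0 := by
      intro h
      apply hxe
      exact congrArg Subtype.val h
    have : Nontrivial (LinearMap.range f) := ⟨⟨_, 0, hne⟩⟩
    exact Module.finrank_pos
  have h3 : Module.finrank ℤ (KH K e) ≤ Module.finrank ℤ (LinearMap.ker f) := by
    let g : KH K e →ₗ[ℤ] LinearMap.ker f :=
      { toFun := fun y => ⟨⟨y.1, y.2.1⟩, y.2.2⟩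
        map_add' := fun _ _ => rfl
        map_smul' := fun _ _ => rfl }
    apply LinearMap.finrank_le_finrank_of_injective (f := g)
    intro y z hyz
    have : ((g y).1 : E → ℤ) = ((g z).1 : E → ℤ) := by rw [hyz]
    exact Subtype.ext this
  omega

/-- a greedy coordinate set -/
theorem exists_greedy (w : E → ℝ) : ∀ (n : ℕ) (K : Submodule ℤ (E → ℤ)),
    Module.finrank ℤ K = n → ∃ S : Finset E, S.card ≤ n ∧
      (∀ x ∈ K, (∀ e ∈ S, x e = 0) → x = 0) ∧
      ∀ t : ℝ, (S.filter fun e => w e ≤ t).card ≤ Module.finrank ℤ (KT K w t) := by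
  intro n
  induction n with
  | zero =>
    intro K hK
    refine ⟨∅, by simp, ?_, by simp⟩
    intro x hx _
    by_contra hne
    obtain ⟨e, he⟩ : ∃ e, x e ≠ 0 := by
      by_contra h
      push Not at h
      exact hne (funext h)
    have := finrank_KH_lt hx he
    omega
  | succ n ih =>
    intro K hK
    classical
    -- coordinates used by `K`
    let C : Finset E := univ.filter fun e => ∃ x ∈ K, x e ≠ 0
    have hC : C.Nonempty := by
      by_contra h
      rw [not_nonempty_iff_eq_empty] at h
      have hbot : K = ⊥ := by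
        rw [eq_bot_iff]
        intro x hx
        rw [Submodule.mem_bot]
        funext e
        by_contra hxe
        have : e ∈ C := by
          rw [mem_filter]
          exact ⟨mem_univ _, x, hx, hxe⟩
        rw [h] at this
        exact absurd this (notMem_empty _)
      rw [hbot, finrank_bot] at hK
      omega
    obtain ⟨e, heC, hmax⟩ := exists_max_image C w hC
    obtain ⟨x, hx, hxe⟩ := (mem_filter.1 heC).2
    have h1 := finrank_KH_lt hx hxe
    have h2 := finrank_le_succ K e (KH K e) (fun y hy hye => ⟨hy, hye⟩)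
    have h3 : Module.finrank ℤ (KH K e) = n := by omega
    obtain ⟨S, hS1, hS2, hS3⟩ := ih (KH K e) h3
    refine ⟨insert e S, ?_, ?_, ?_⟩
    · exact (card_insert_le _ _).trans (by omega)
    · intro y hy hyS
      apply hS2 y ⟨hy, hyS e (mem_insert_self _ _)⟩
      intro g hg
      exact hyS g (mem_insert_of_mem hg)
    · intro t
      by_cases het : w e ≤ t
      · have hKT : K ≤ KT K w t := by
          intro y hy
          refine ⟨hy, fun g hg => ?_⟩
          by_contra hyg
          have : g ∈ C := by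
            rw [mem_filter]
            exact ⟨mem_univ _, y, hy, hyg⟩
          have := hmax g this
          linarith
        have h4 := Submodule.finrank_mono hKT
        have h5 : ((insert e S).filter fun g => w g ≤ t).card ≤ (insert e S).card :=
          card_filter_le _ _
        have h6 := card_insert_le e S
        omega
      · have h4 : ((insert e S).filter fun g => w g ≤ t) = S.filter fun g => w g ≤ t := by
          rw [filter_insert, if_neg het]
        rw [h4]
        refine (hS3 t).trans (Submodule.finrank_mono ?_)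
        intro y hy
        exact ⟨hy.1.1, hy.2⟩

/-- products of weights with few small ones -/
theorem prod_ge {w : E → ℝ} {κ : ℝ} (hκ : 0 < κ) : ∀ (n : ℕ) (S : Finset E), S.card = n →
    (∀ t : ℝ, 0 < t → ((S.filter fun e => w e ≤ t).card : ℝ) ≤ t / κ) → (∀ e ∈ S, 0 < w e) →
    κ ^ n * (n.factorial : ℝ) ≤ ∏ e ∈ S, w e := by
  intro n
  induction n with
  | zero =>
    intro S hS _ _
    rw [card_eq_zero] at hS
    rw [hS]
    simp
  | succ n ih =>
    intro S hS hcount hpos
    have hne : S.Nonempty := by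
      rw [← card_pos]; omega
    obtain ⟨e, heS, hmax⟩ := exists_max_image S w hne
    have h1 := hcount (w e) (hpos e heS)
    have h2 : (S.filter fun g => w g ≤ w e) = S := by
      rw [filter_true_of_mem hmax]
    rw [h2, hS] at h1
    have h3 : κ * (n + 1 : ℕ) ≤ w e := by
      rw [le_div_iff₀ hκ] at h1
      linarith
    have h4 : (S.erase e).card = n := by
      rw [card_erase_of_mem heS]; omega
    have h5 := ih (S.erase e) h4 (by
      intro t ht
      refine le_trans ?_ (hcount t ht)
      exact_mod_cast card_le_card (filter_subset_filter _ (erase_subset _ _)))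
      (fun g hg => hpos g (mem_of_mem_erase hg))
    rw [← mul_prod_erase S w heS]
    have h6 : (0 : ℝ) ≤ κ ^ n * (n.factorial : ℝ) := by positivity
    calc κ ^ (n + 1) * ((n + 1).factorial : ℝ) = (κ * (n + 1 : ℕ)) * (κ ^ n * (n.factorial : ℝ)) := by
          rw [Nat.factorial_succ]
          push_cast
          ring
      _ ≤ w e * ∏ g ∈ S.erase e, w g := by
          apply mul_le_mul h3 h5 h6
          exact (hpos e heS).le

end greedy

section det

open Matrix

variable {E : Type} [Fintype E] [DecidableEq E]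

lemma det_add_rankOne_ge {r : ℕ} {A : Matrix (Fin r) (Fin r) ℝ} (hA : A.PosDef) (u : Fin r → ℝ)
    {c : ℝ} (hc : 0 ≤ c) :
    A.det ≤ (A + Matrix.of fun i j => c * u i * u j).det := by
  have h1 : (Matrix.of fun i j => c * u i * u j) =
      replicateCol Unit (c • u) * replicateRow Unit u := by
    ext i j
    simp [Matrix.mul_apply]
  have hdet : IsUnit A.det := (Matrix.isUnit_iff_isUnit_det A).1 hA.isUnit
  rw [h1, det_add_replicateCol_mul_replicateRow hdet]
  have h2 : (1 + replicateRow Unit u * A⁻¹ * replicateCol Unit (c • u)).det =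
      1 + c * (u ⬝ᵥ (A⁻¹ *ᵥ u)) := by
    rw [det_unique, Matrix.add_apply, Matrix.one_apply_eq, Matrix.mul_assoc,
      ]
    congr 1
    simp only [Matrix.mul_apply, replicateRow_apply, replicateCol_apply, dotProduct, mulVec,
      Pi.smul_apply, smul_eq_mul, Finset.mul_sum]
    apply Finset.sum_congr rfl
    intro i _
    apply Finset.sum_congr rfl
    intro j _
    ring
  rw [h2]
  have h3 : 0 ≤ u ⬝ᵥ (A⁻¹ *ᵥ u) := by
    have := hA.inv.posSemidef.dotProduct_mulVec_nonneg u
    simpa using this
  have h4 : 0 < A.det := hA.det_pos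
  nlinarith [mul_nonneg hc h3, mul_nonneg h4.le (mul_nonneg hc h3)]

/-- partial Gram matrix -/
def gramT {r : ℕ} (w : E → ℝ) (b : Fin r → E → ℤ) (T : Finset E) : Matrix (Fin r) (Fin r) ℝ :=
  Matrix.of fun i j => ∑ e ∈ T, w e * (b i e : ℝ) * (b j e : ℝ)

theorem det_gram_ge {r : ℕ} {w : E → ℝ} (hw : ∀ e, 0 < w e) {b : Fin r → E → ℤ} {S : Finset E}
    (hS : S.card = r)
    (hinj : ∀ c : Fin r → ℤ, (∀ e ∈ S, ∑ i, c i * b i e = 0) → c = 0) :
    ∏ e ∈ S, w e ≤ (gramT w b univ).det := by
  classical
  let σ : Fin r ≃ S := (Fintype.equivFinOfCardEq (by rw [Fintype.card_coe, hS])).symm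
  let Bz : Matrix (Fin r) (Fin r) ℤ := Matrix.of fun i j => b i (σ j)
  have hBz : Bz.det ≠ 0 := by
    intro h0
    rw [← Matrix.exists_vecMul_eq_zero_iff] at h0
    obtain ⟨c, hc, hcB⟩ := h0
    apply hc
    apply hinj
    intro e he
    have h1 := congrFun hcB (σ.symm ⟨e, he⟩)
    simpa [Matrix.vecMul, dotProduct, Bz] using h1
  let B : Matrix (Fin r) (Fin r) ℝ := Bz.map (fun z : ℤ => (z : ℝ))
  have hBdet : B.det = (Bz.det : ℝ) := by
    have := (Int.castRingHom ℝ).map_det Bz
    simpa [B] using this.symm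
  have hB1 : 1 ≤ B.det ^ 2 := by
    rw [hBdet]
    have h1 : 1 ≤ Bz.det ^ 2 := by
      have : 0 < Bz.det ^ 2 := by positivity
      omega
    exact_mod_cast h1
  have hBne : B.det ≠ 0 := by
    intro h
    rw [h] at hB1
    norm_num at hB1
  have hGS : gramT w b S = B * Matrix.diagonal (fun j => w (σ j)) * Bᵀ := by
    ext i j
    rw [Matrix.mul_apply]
    simp only [Matrix.mul_diagonal, Matrix.transpose_apply, gramT, Matrix.of_apply, B, Bz,
      Matrix.map_apply]
    rw [← Finset.sum_coe_sort S, ← σ.sum_comp]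
    apply Finset.sum_congr rfl
    intro k _
    ring
  have hprod : ∏ j, w (σ j) = ∏ e ∈ S, w e := by
    rw [← Finset.prod_coe_sort S w]
    exact σ.prod_comp (fun e : S => w e)
  have hdetS : (gramT w b S).det = B.det ^ 2 * ∏ e ∈ S, w e := by
    rw [hGS, Matrix.det_mul, Matrix.det_mul, Matrix.det_diagonal, Matrix.det_transpose, hprod]
    ring
  have hposS : (gramT w b S).PosDef := by
    rw [hGS]
    have h1 : (Matrix.diagonal (fun j => w (σ j)) : Matrix (Fin r) (Fin r) ℝ).PosDef := by
      rw [Matrix.posDef_diagonal_iff]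
      intro j
      exact hw _
    have h2 := h1.mul_mul_conjTranspose_same (B := B) (by
      rw [Matrix.vecMul_injective_iff_isUnit, Matrix.isUnit_iff_isUnit_det]
      exact isUnit_iff_ne_zero.2 hBne)
    rwa [Matrix.conjTranspose_eq_transpose_of_trivial] at h2
  have main : ∀ T : Finset E, Disjoint S T → (gramT w b (S ∪ T)).PosDef ∧
      (gramT w b S).det ≤ (gramT w b (S ∪ T)).det := by
    intro T
    induction T using Finset.induction_on with
    | empty =>
      intro _
      rw [union_empty]
      exact ⟨hposS, le_rfl⟩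
    | insert e T he ih =>
      intro hd
      rw [disjoint_insert_right] at hd
      obtain ⟨h1, h2⟩ := ih hd.2
      have h3 : gramT w b (S ∪ insert e T) = gramT w b (S ∪ T) +
          Matrix.of fun i j => w e * (b i e : ℝ) * (b j e : ℝ) := by
        ext i j
        rw [Matrix.add_apply]
        simp only [gramT, Matrix.of_apply]
        rw [union_insert, sum_insert]
        · ring
        · rw [mem_union]
          rintro (h | h)
          · exact hd.1 h
          · exact he h
      rw [h3]
      refine ⟨?_, h2.trans (det_add_rankOne_ge h1 _ (hw e).le)⟩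
      apply h1.add_posSemidef
      have h4 := (Matrix.posSemidef_vecMulVec_self_star (fun i => (b i e : ℝ))).smul (hw e).le
      have h5 : (Matrix.of fun i j => w e * (b i e : ℝ) * (b j e : ℝ)) =
          w e • Matrix.vecMulVec (fun i => (b i e : ℝ)) (star fun i => (b i e : ℝ)) := by
        ext i j
        simp [Matrix.vecMulVec_apply, mul_assoc]
      rw [h5]
      exact h4
  have h1 := (main (univ \ S) disjoint_sdiff).2
  rw [union_sdiff_of_subset (subset_univ S), hdetS] at h1
  have h2 : 0 < ∏ e ∈ S, w e := prod_pos fun e _ => hw e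
  nlinarith

end det

end Pool.Agent.helper275_flow
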