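import Pool.Agent.helper275_flow.Core

/-!
# Upper bound for the Gram determinant of a flow lattice (unit weights)
-/

open Finset

set_option linter.unusedSectionVars false

namespace Pool.Agent.helper275_flow

variable {V E : Type} [Fintype V] [DecidableEq V] [Fintype E] [DecidableEq E]

/-- integer Gram matrix -/
def gramZ {r : ℕ} (b : Fin r → E → ℤ) : Matrix (Fin r) (Fin r) ℤ :=
  Matrix.of fun i j => ∑ e, b i e * b j e

lemma gramT_one {r : ℕ} (b : Fin r → E → ℤ) :
    gramT (fun _ => (1 : ℝ)) b univ = (gramZ b).map (fun z : ℤ => (z : ℝ)) := by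
  ext i j
  simp [gramT, gramZ]

lemma det_gramT_one {r : ℕ} (b : Fin r → E → ℤ) :
    (gramT (fun _ => (1 : ℝ)) b univ).det = ((gramZ b).det : ℝ) := by
  rw [gramT_one]
  have := (Int.castRingHom ℝ).map_det (gramZ b)
  simpa using this.symm

lemma exists_square (K : Submodule ℤ (E → ℤ)) :
    ∃ S : Finset E, S.card = Module.finrank ℤ K ∧ ∀ x ∈ K, (∀ e ∈ S, x e = 0) → x = 0 := by
  obtain ⟨S, hS1, hS2, -⟩ := exists_greedy (fun _ => (0 : ℝ)) _ K rfl
  refine ⟨S, le_antisymm hS1 ?_, hS2⟩
  let f : K →ₗ[ℤ] (S → ℤ) :=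
    { toFun := fun x e => (x : E → ℤ) e
      map_add' := fun _ _ => rfl
      map_smul' := fun _ _ => rfl }
  have h1 : Function.Injective f := by
    rw [← LinearMap.ker_eq_bot, LinearMap.ker_eq_bot']
    intro x hx
    apply Subtype.ext
    apply hS2 _ x.2
    intro e he
    exact congrFun hx ⟨e, he⟩
  have h2 := LinearMap.finrank_le_finrank_of_injective h1
  rwa [Module.finrank_pi, Fintype.card_coe] at h2

lemma gramZ_pos {K : Submodule ℤ (E → ℤ)} {n : ℕ} (b : Module.Basis (Fin n) ℤ K) :
    0 < (gramZ (fun i => ((b i : K) : E → ℤ))).det := by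
  obtain ⟨S, hS1, hS2⟩ := exists_square K
  rw [Module.finrank_eq_card_basis b, Fintype.card_fin] at hS1
  have h := det_gram_ge (w := fun _ => (1 : ℝ)) (fun _ => one_pos) hS1
    (b := fun i => ((b i : K) : E → ℤ)) (basis_inj b hS2)
  rw [det_gramT_one, prod_const_one] at h
  have : (0 : ℝ) < ((gramZ (fun i => ((b i : K) : E → ℤ))).det : ℝ) := by linarith
  exact_mod_cast this

/-- duality: the determinant of the flow lattice is at most a Gram determinant of stars -/
theorem gram_le_star (s t : E → V) {n : ℕ}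
    (b : Module.Basis (Fin n) ℤ (LinearMap.ker (bd s t))) :
    ∃ (k : ℕ) (I : Fin k → V), Function.Injective I ∧
      (gramZ (fun i => ((b i : LinearMap.ker (bd s t)) : E → ℤ))).det ≤
        (Matrix.of fun i j : Fin k => ∑ e, inc s t e (I i) * inc s t e (I j)).det := by
  classical
  let k := Module.finrank ℤ (LinearMap.range (bd s t))
  let β : Module.Basis (Fin k) ℤ (LinearMap.range (bd s t)) := Module.finBasis ℤ _
  let bQ := β.map (bd s t).quotKerEquivRange.symm
  let Y : Module.Basis (Fin n ⊕ Fin k) ℤ (E → ℤ) := Module.Basis.sumQuot b bQ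
  have hYl : ∀ i, Y (Sum.inl i) = ((b i : LinearMap.ker (bd s t)) : E → ℤ) := fun i =>
    Module.Basis.sumQuot_inl b bQ i
  have hYr : ∀ j, bd s t (Y (Sum.inr j)) = (β j : V → ℤ) := by
    intro j
    have h1 : Submodule.Quotient.mk (Y (Sum.inr j)) = bQ j := Module.Basis.sumQuot_inr b bQ j
    have h2 := congrArg (bd s t).quotKerEquivRange h1
    rw [Module.Basis.map_apply, LinearEquiv.apply_symm_apply] at h2
    have h3 := congrArg Subtype.val h2
    rw [← h3]
    rfl
  obtain ⟨S, hS1, hS2⟩ := exists_square (LinearMap.range (bd s t))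
  let I : Fin k ≃ S := (Fintype.equivFinOfCardEq (by rw [Fintype.card_coe, hS1])).symm
  refine ⟨k, fun i => (I i : V), fun i j h => I.injective (Subtype.ext h), ?_⟩
  let ε : (Fin n ⊕ Fin k) ≃ E := Y.indexEquiv (Pi.basisFun ℤ E)
  -- square matrices
  let X : Matrix (Fin n ⊕ Fin k) (Fin n ⊕ Fin k) ℤ := Matrix.of fun i j =>
    Sum.elim (fun i => ((b i : LinearMap.ker (bd s t)) : E → ℤ) (ε j))
      (fun i => inc s t (ε j) (I i : V)) i
  let Z : Matrix (Fin n ⊕ Fin k) (Fin n ⊕ Fin k) ℤ := Matrix.of fun i j => Y i (ε j)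
  have hZ : Z.det ^ 2 = 1 := by
    have h1 : IsUnit ((Pi.basisFun ℤ E).reindex ε.symm |>.det Y) := Module.Basis.isUnit_det _ _
    have h2 : ((Pi.basisFun ℤ E).reindex ε.symm |>.det Y) = Z.det := by
      rw [Module.Basis.det_apply, ← Matrix.det_transpose]
      congr 1
    rw [h2] at h1
    rcases Int.isUnit_iff.1 h1 with h | h <;> rw [h] <;> norm_num
  set D := (gramZ (fun i => ((b i : LinearMap.ker (bd s t)) : E → ℤ))).det with hD
  have hDpos : 0 < D := gramZ_pos b
  set Δ := (Matrix.of fun i j : Fin k =>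
    ∑ e, inc s t e (I i : V) * inc s t e (I j : V)).det with hΔ
  -- flows are orthogonal to stars
  have horth : ∀ (i : Fin n) (v : V),
      ∑ e, ((b i : LinearMap.ker (bd s t)) : E → ℤ) e * inc s t e v = 0 := by
    intro i v
    have : bd s t ((b i : LinearMap.ker (bd s t)) : E → ℤ) = 0 := (b i).2
    exact congrFun this v
  have hXX : X * X.transpose = Matrix.fromBlocks
      (gramZ (fun i => ((b i : LinearMap.ker (bd s t)) : E → ℤ))) 0 0
      (Matrix.of fun i j : Fin k => ∑ e, inc s t e (I i : V) * inc s t e (I j : V)) := by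
    ext i j
    rw [Matrix.mul_apply]
    rcases i with i | i <;> rcases j with j | j
    · simp only [X, Matrix.transpose_apply, Matrix.of_apply, Sum.elim_inl,
        Matrix.fromBlocks_apply₁₁, gramZ]
      exact ε.sum_comp (fun e => ((b i : LinearMap.ker (bd s t)) : E → ℤ) e *
        ((b j : LinearMap.ker (bd s t)) : E → ℤ) e)
    · simp only [X, Matrix.transpose_apply, Matrix.of_apply, Sum.elim_inl, Sum.elim_inr,
        Matrix.fromBlocks_apply₁₂, Matrix.zero_apply]
      rw [← horth i (I j : V)]
      exact ε.sum_comp (fun e => ((b i : LinearMap.ker (bd s t)) : E → ℤ) e *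
        inc s t e (I j : V))
    · simp only [X, Matrix.transpose_apply, Matrix.of_apply, Sum.elim_inl, Sum.elim_inr,
        Matrix.fromBlocks_apply₂₁, Matrix.zero_apply]
      rw [← horth j (I i : V)]
      rw [← ε.sum_comp (fun e => ((b j : LinearMap.ker (bd s t)) : E → ℤ) e *
        inc s t e (I i : V))]
      apply sum_congr rfl
      intro e _
      ring
    · simp only [X, Matrix.transpose_apply, Matrix.of_apply, Sum.elim_inr,
        Matrix.fromBlocks_apply₂₂]
      exact ε.sum_comp (fun e => inc s t e (I i : V) * inc s t e (I j : V))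
  have hXdet : X.det ^ 2 = D * Δ := by
    have h1 : (X * X.transpose).det = X.det ^ 2 := by
      rw [Matrix.det_mul, Matrix.det_transpose, sq]
    rw [← h1, hXX, Matrix.det_fromBlocks_zero₂₁]
  let T : Matrix (Fin k) (Fin k) ℤ := Matrix.of fun i j => (β j : V → ℤ) (I i : V)
  have hXZ : X * Z.transpose = Matrix.fromBlocks
      (gramZ (fun i => ((b i : LinearMap.ker (bd s t)) : E → ℤ)))
      (Matrix.of fun i j => ∑ e, ((b i : LinearMap.ker (bd s t)) : E → ℤ) e * Y (Sum.inr j) e)
      0 T := by
    ext i j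
    rw [Matrix.mul_apply]
    rcases i with i | i <;> rcases j with j | j
    · simp only [X, Z, Matrix.transpose_apply, Matrix.of_apply, Sum.elim_inl,
        Matrix.fromBlocks_apply₁₁, gramZ, hYl]
      exact ε.sum_comp (fun e => ((b i : LinearMap.ker (bd s t)) : E → ℤ) e *
        ((b j : LinearMap.ker (bd s t)) : E → ℤ) e)
    · simp only [X, Z, Matrix.transpose_apply, Matrix.of_apply, Sum.elim_inl,
        Matrix.fromBlocks_apply₁₂]
      exact ε.sum_comp (fun e => ((b i : LinearMap.ker (bd s t)) : E → ℤ) e *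
        Y (Sum.inr j) e)
    · simp only [X, Z, Matrix.transpose_apply, Matrix.of_apply, Sum.elim_inr,
        Matrix.fromBlocks_apply₂₁, Matrix.zero_apply, hYl]
      rw [← horth j (I i : V)]
      rw [← ε.sum_comp (fun e => ((b j : LinearMap.ker (bd s t)) : E → ℤ) e *
        inc s t e (I i : V))]
      apply sum_congr rfl
      intro e _
      ring
    · simp only [X, Z, T, Matrix.transpose_apply, Matrix.of_apply, Sum.elim_inr,
        Matrix.fromBlocks_apply₂₂]
      rw [← hYr j, bd_apply, ← ε.sum_comp]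
      apply sum_congr rfl
      intro e _
      ring
  have hXZdet : X.det * Z.det = D * T.det := by
    have h1 : (X * Z.transpose).det = X.det * Z.det := by
      rw [Matrix.det_mul, Matrix.det_transpose]
    rw [← h1, hXZ, Matrix.det_fromBlocks_zero₂₁]
  have hT : T.det ≠ 0 := by
    intro h0
    rw [← Matrix.exists_mulVec_eq_zero_iff] at h0
    obtain ⟨c, hc, hcT⟩ := h0
    apply hc
    apply basis_inj β hS2
    intro v hv
    have h1 := congrFun hcT (I.symm ⟨v, hv⟩)
    rw [Matrix.mulVec, dotProduct] at h1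
    simp only [T, Matrix.of_apply, Equiv.apply_symm_apply, Pi.zero_apply] at h1
    rw [← h1]
    apply sum_congr rfl
    intro i _
    ring
  have h1 : D * Δ = D * (D * T.det ^ 2) := by
    have h2 : (X.det * Z.det) ^ 2 = (D * T.det) ^ 2 := by rw [hXZdet]
    rw [mul_pow, hZ, mul_one, hXdet] at h2
    rw [h2]
    ring
  have h2 : Δ = D * T.det ^ 2 := mul_left_cancel₀ hDpos.ne' h1
  rw [h2]
  have h3 : 1 ≤ T.det ^ 2 := by
    have : 0 < T.det ^ 2 := by positivity
    omega
  nlinarith

/-- a positive semidefinite matrix with small diagonal has small determinant -/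
lemma det_le_pow {k : ℕ} {M : Matrix (Fin k) (Fin k) ℝ} (hM : M.PosSemidef) {c : ℝ} (hc : 0 < c)
    (hd : ∀ i, M i i ≤ c) : M.det ≤ c ^ k := by
  have h1 : M.det = ∏ i, hM.isHermitian.eigenvalues i := by
    have := hM.isHermitian.det_eq_prod_eigenvalues
    simpa using this
  have h2 : M.trace = ∑ i, hM.isHermitian.eigenvalues i := by
    have := hM.isHermitian.trace_eq_sum_eigenvalues
    simpa using this
  have h3 : M.trace ≤ k * c := by
    rw [Matrix.trace]
    calc ∑ i, M.diag i ≤ ∑ _i : Fin k, c := sum_le_sum fun i _ => hd i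
      _ = k * c := by simp
  have h4 : ∀ i, hM.isHermitian.eigenvalues i ≤
      c * Real.exp (hM.isHermitian.eigenvalues i / c - 1) := by
    intro i
    have h5 := Real.add_one_le_exp (hM.isHermitian.eigenvalues i / c - 1)
    have h6 : hM.isHermitian.eigenvalues i / c ≤
        Real.exp (hM.isHermitian.eigenvalues i / c - 1) := by linarith
    rwa [div_le_iff₀ hc, mul_comm] at h6
  rw [h1]
  calc ∏ i, hM.isHermitian.eigenvalues i
      ≤ ∏ i, c * Real.exp (hM.isHermitian.eigenvalues i / c - 1) :=
        prod_le_prod (fun i _ => hM.eigenvalues_nonneg i) (fun i _ => h4 i)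
    _ = c ^ k * Real.exp (∑ i, (hM.isHermitian.eigenvalues i / c - 1)) := by
        rw [prod_mul_distrib, prod_const, card_univ, Fintype.card_fin, Real.exp_sum]
    _ ≤ c ^ k * 1 := by
        apply mul_le_mul_of_nonneg_left _ (by positivity)
        rw [Real.exp_le_one_iff, sum_sub_distrib, ← sum_div, ← h2]
        simp only [sum_const, card_univ, Fintype.card_fin, nsmul_eq_mul, mul_one]
        have : M.trace / c ≤ k := by
          rw [div_le_iff₀ hc]; exact h3
        linarith
    _ = c ^ k := mul_one _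

/-- the Gram determinant of a flow lattice with unit weights is at most exponential -/
theorem gram_le_pow (s t : E → V) {n : ℕ} (b : Module.Basis (Fin n) ℤ (LinearMap.ker (bd s t)))
    {d : ℕ} (hd1 : 1 ≤ d) (hd : ∀ v, ∑ e, inc s t e v ^ 2 ≤ (d : ℤ)) :
    ((gramZ (fun i => ((b i : LinearMap.ker (bd s t)) : E → ℤ))).det : ℝ) ≤
      (d : ℝ) ^ Fintype.card V := by
  obtain ⟨k, I, hI, h⟩ := gram_le_star s t b
  have hk : k ≤ Fintype.card V := by
    have := Fintype.card_le_of_injective I hI
    rwa [Fintype.card_fin] at this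
  let Q : Matrix (Fin k) E ℝ := Matrix.of fun i e => (inc s t e (I i) : ℝ)
  have hQ : (Matrix.of fun i j : Fin k => ∑ e, inc s t e (I i) * inc s t e (I j)).map
      (fun z : ℤ => (z : ℝ)) = Q * Q.conjTranspose := by
    ext i j
    simp [Q, Matrix.mul_apply]
  have hdet : (((Matrix.of fun i j : Fin k =>
      ∑ e, inc s t e (I i) * inc s t e (I j)).det : ℤ) : ℝ) = (Q * Q.conjTranspose).det := by
    rw [← hQ]
    have := (Int.castRingHom ℝ).map_det
      (Matrix.of fun i j : Fin k => ∑ e, inc s t e (I i) * inc s t e (I j))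
    simpa using this
  have h1 : (Q * Q.conjTranspose).det ≤ (d : ℝ) ^ k := by
    apply det_le_pow (Matrix.posSemidef_self_mul_conjTranspose Q)
    · exact_mod_cast hd1
    · intro i
      rw [← hQ]
      simp only [Matrix.map_apply, Matrix.of_apply]
      have h2 := hd (I i)
      have h3 : ∑ e, inc s t e (I i) * inc s t e (I i) = ∑ e, inc s t e (I i) ^ 2 := by
        apply sum_congr rfl
        intro e _
        ring
      rw [h3]
      exact_mod_cast h2
  calc ((gramZ (fun i => ((b i : LinearMap.ker (bd s t)) : E → ℤ))).det : ℝ)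
      ≤ (((Matrix.of fun i j : Fin k =>
      ∑ e, inc s t e (I i) * inc s t e (I j)).det : ℤ) : ℝ) := by exact_mod_cast h
    _ ≤ (d : ℝ) ^ k := by rw [hdet]; exact h1
    _ ≤ (d : ℝ) ^ Fintype.card V := by
        apply pow_le_pow_right₀ _ hk
        exact_mod_cast hd1

end Pool.Agent.helper275_flow
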