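import Pool.Agent.helper275_flow.Dual

/-!
# Upper bound for the Gram determinant of the kernel of an integer matrix (unit weights)
-/

open Finset

set_option linter.unusedSectionVars false

namespace Pool.Agent.helper275_flow

variable {V E : Type} [Fintype V] [DecidableEq V] [Fintype E] [DecidableEq E]

/-- the linear map given by an integer matrix with columns `a e` -/
def bdA (a : E → V → ℤ) : (E → ℤ) →ₗ[ℤ] (V → ℤ) where
  toFun := fun x v => ∑ e, x e * a e v
  map_add' := by
    intro x y
    funext v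
    simp only [Pi.add_apply, add_mul, sum_add_distrib]
  map_smul' := by
    intro c x
    funext v
    simp only [Pi.smul_apply, smul_eq_mul, mul_assoc, mul_sum, RingHom.id_apply]

lemma bdA_apply (a : E → V → ℤ) (x : E → ℤ) (v : V) : bdA a x v = ∑ e, x e * a e v := rfl

/-- duality: the determinant of the flow lattice is at most a Gram determinant of stars -/
theorem gramA_le_star (a : E → V → ℤ) {n : ℕ}
    (b : Module.Basis (Fin n) ℤ (LinearMap.ker (bdA a))) :
    ∃ (k : ℕ) (I : Fin k → V), Function.Injective I ∧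
      (gramZ (fun i => ((b i : LinearMap.ker (bdA a)) : E → ℤ))).det ≤
        (Matrix.of fun i j : Fin k => ∑ e, a e (I i) * a e (I j)).det := by
  classical
  let k := Module.finrank ℤ (LinearMap.range (bdA a))
  let β : Module.Basis (Fin k) ℤ (LinearMap.range (bdA a)) := Module.finBasis ℤ _
  let bQ := β.map (bdA a).quotKerEquivRange.symm
  let Y : Module.Basis (Fin n ⊕ Fin k) ℤ (E → ℤ) := Module.Basis.sumQuot b bQ
  have hYl : ∀ i, Y (Sum.inl i) = ((b i : LinearMap.ker (bdA a)) : E → ℤ) := fun i =>
    Module.Basis.sumQuot_inl b bQ i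
  have hYr : ∀ j, bdA a (Y (Sum.inr j)) = (β j : V → ℤ) := by
    intro j
    have h1 : Submodule.Quotient.mk (Y (Sum.inr j)) = bQ j := Module.Basis.sumQuot_inr b bQ j
    have h2 := congrArg (bdA a).quotKerEquivRange h1
    rw [Module.Basis.map_apply, LinearEquiv.apply_symm_apply] at h2
    have h3 := congrArg Subtype.val h2
    rw [← h3]
    rfl
  obtain ⟨S, hS1, hS2⟩ := exists_square (LinearMap.range (bdA a))
  let I : Fin k ≃ S := (Fintype.equivFinOfCardEq (by rw [Fintype.card_coe, hS1])).symm
  refine ⟨k, fun i => (I i : V), fun i j h => I.injective (Subtype.ext h), ?_⟩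
  let ε : (Fin n ⊕ Fin k) ≃ E := Y.indexEquiv (Pi.basisFun ℤ E)
  -- square matrices
  let X : Matrix (Fin n ⊕ Fin k) (Fin n ⊕ Fin k) ℤ := Matrix.of fun i j =>
    Sum.elim (fun i => ((b i : LinearMap.ker (bdA a)) : E → ℤ) (ε j))
      (fun i => a (ε j) (I i : V)) i
  let Z : Matrix (Fin n ⊕ Fin k) (Fin n ⊕ Fin k) ℤ := Matrix.of fun i j => Y i (ε j)
  have hZ : Z.det ^ 2 = 1 := by
    have h1 : IsUnit ((Pi.basisFun ℤ E).reindex ε.symm |>.det Y) := Module.Basis.isUnit_det _ _
    have h2 : ((Pi.basisFun ℤ E).reindex ε.symm |>.det Y) = Z.det := by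
      rw [Module.Basis.det_apply, ← Matrix.det_transpose]
      congr 1
    rw [h2] at h1
    rcases Int.isUnit_iff.1 h1 with h | h <;> rw [h] <;> norm_num
  set D := (gramZ (fun i => ((b i : LinearMap.ker (bdA a)) : E → ℤ))).det with hD
  have hDpos : 0 < D := gramZ_pos b
  set Δ := (Matrix.of fun i j : Fin k =>
    ∑ e, a e (I i : V) * a e (I j : V)).det with hΔ
  -- flows are orthogonal to stars
  have horth : ∀ (i : Fin n) (v : V),
      ∑ e, ((b i : LinearMap.ker (bdA a)) : E → ℤ) e * a e v = 0 := by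
    intro i v
    have : bdA a ((b i : LinearMap.ker (bdA a)) : E → ℤ) = 0 := (b i).2
    exact congrFun this v
  have hXX : X * X.transpose = Matrix.fromBlocks
      (gramZ (fun i => ((b i : LinearMap.ker (bdA a)) : E → ℤ))) 0 0
      (Matrix.of fun i j : Fin k => ∑ e, a e (I i : V) * a e (I j : V)) := by
    ext i j
    rw [Matrix.mul_apply]
    rcases i with i | i <;> rcases j with j | j
    · simp only [X, Matrix.transpose_apply, Matrix.of_apply, Sum.elim_inl,
        Matrix.fromBlocks_apply₁₁, gramZ]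
      exact ε.sum_comp (fun e => ((b i : LinearMap.ker (bdA a)) : E → ℤ) e *
        ((b j : LinearMap.ker (bdA a)) : E → ℤ) e)
    · simp only [X, Matrix.transpose_apply, Matrix.of_apply, Sum.elim_inl, Sum.elim_inr,
        Matrix.fromBlocks_apply₁₂, Matrix.zero_apply]
      rw [← horth i (I j : V)]
      exact ε.sum_comp (fun e => ((b i : LinearMap.ker (bdA a)) : E → ℤ) e *
        a e (I j : V))
    · simp only [X, Matrix.transpose_apply, Matrix.of_apply, Sum.elim_inl, Sum.elim_inr,
        Matrix.fromBlocks_apply₂₁, Matrix.zero_apply]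
      rw [← horth j (I i : V)]
      rw [← ε.sum_comp (fun e => ((b j : LinearMap.ker (bdA a)) : E → ℤ) e *
        a e (I i : V))]
      apply sum_congr rfl
      intro e _
      ring
    · simp only [X, Matrix.transpose_apply, Matrix.of_apply, Sum.elim_inr,
        Matrix.fromBlocks_apply₂₂]
      exact ε.sum_comp (fun e => a e (I i : V) * a e (I j : V))
  have hXdet : X.det ^ 2 = D * Δ := by
    have h1 : (X * X.transpose).det = X.det ^ 2 := by
      rw [Matrix.det_mul, Matrix.det_transpose, sq]
    rw [← h1, hXX, Matrix.det_fromBlocks_zero₂₁]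
  let T : Matrix (Fin k) (Fin k) ℤ := Matrix.of fun i j => (β j : V → ℤ) (I i : V)
  have hXZ : X * Z.transpose = Matrix.fromBlocks
      (gramZ (fun i => ((b i : LinearMap.ker (bdA a)) : E → ℤ)))
      (Matrix.of fun i j => ∑ e, ((b i : LinearMap.ker (bdA a)) : E → ℤ) e * Y (Sum.inr j) e)
      0 T := by
    ext i j
    rw [Matrix.mul_apply]
    rcases i with i | i <;> rcases j with j | j
    · simp only [X, Z, Matrix.transpose_apply, Matrix.of_apply, Sum.elim_inl,
        Matrix.fromBlocks_apply₁₁, gramZ, hYl]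
      exact ε.sum_comp (fun e => ((b i : LinearMap.ker (bdA a)) : E → ℤ) e *
        ((b j : LinearMap.ker (bdA a)) : E → ℤ) e)
    · simp only [X, Z, Matrix.transpose_apply, Matrix.of_apply, Sum.elim_inl,
        Matrix.fromBlocks_apply₁₂]
      exact ε.sum_comp (fun e => ((b i : LinearMap.ker (bdA a)) : E → ℤ) e *
        Y (Sum.inr j) e)
    · simp only [X, Z, Matrix.transpose_apply, Matrix.of_apply, Sum.elim_inr,
        Matrix.fromBlocks_apply₂₁, Matrix.zero_apply, hYl]
      rw [← horth j (I i : V)]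
      rw [← ε.sum_comp (fun e => ((b j : LinearMap.ker (bdA a)) : E → ℤ) e *
        a e (I i : V))]
      apply sum_congr rfl
      intro e _
      ring
    · simp only [X, Z, T, Matrix.transpose_apply, Matrix.of_apply, Sum.elim_inr,
        Matrix.fromBlocks_apply₂₂]
      rw [← hYr j, bdA_apply, ← ε.sum_comp]
      apply sum_congr rfl
      intro e _
      ring
  have hXZdet : X.det * Z.det = D * T.det := by
    have h1 : (X * Z.transpose).det = X.det * Z.det := by
      rw [Matrix.det_mul, Matrix.det_transpose]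
    rw [← h1, hXZ, Matrix.det_fromBlocks_zero₂₁]
  have hT : T.det ≠ 0 := by
    intro h0
    rw [← Matrix.exists_mulVec_eq_zero_iff] at h0
    obtain ⟨c, hc, hcT⟩ := h0
    apply hc
    apply basis_inj β hS2
    intro v hv
    have h1 := congrFun hcT (I.symm ⟨v, hv⟩)
    rw [Matrix.mulVec, dotProduct] at h1
    simp only [T, Matrix.of_apply, Equiv.apply_symm_apply, Pi.zero_apply] at h1
    rw [← h1]
    apply sum_congr rfl
    intro i _
    ring
  have h1 : D * Δ = D * (D * T.det ^ 2) := by
    have h2 : (X.det * Z.det) ^ 2 = (D * T.det) ^ 2 := by rw [hXZdet]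
    rw [mul_pow, hZ, mul_one, hXdet] at h2
    rw [h2]
    ring
  have h2 : Δ = D * T.det ^ 2 := mul_left_cancel₀ hDpos.ne' h1
  rw [h2]
  have h3 : 1 ≤ T.det ^ 2 := by
    have : 0 < T.det ^ 2 := by positivity
    omega
  nlinarith

/-- the Gram determinant of a flow lattice with unit weights is at most exponential -/
theorem gramA_le_pow (a : E → V → ℤ) {n : ℕ} (b : Module.Basis (Fin n) ℤ (LinearMap.ker (bdA a)))
    {d : ℕ} (hd1 : 1 ≤ d) (hd : ∀ v, ∑ e, a e v ^ 2 ≤ (d : ℤ)) :
    ((gramZ (fun i => ((b i : LinearMap.ker (bdA a)) : E → ℤ))).det : ℝ) ≤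
      (d : ℝ) ^ Fintype.card V := by
  obtain ⟨k, I, hI, h⟩ := gramA_le_star a b
  have hk : k ≤ Fintype.card V := by
    have := Fintype.card_le_of_injective I hI
    rwa [Fintype.card_fin] at this
  let Q : Matrix (Fin k) E ℝ := Matrix.of fun i e => (a e (I i) : ℝ)
  have hQ : (Matrix.of fun i j : Fin k => ∑ e, a e (I i) * a e (I j)).map
      (fun z : ℤ => (z : ℝ)) = Q * Q.conjTranspose := by
    ext i j
    simp [Q, Matrix.mul_apply]
  have hdet : (((Matrix.of fun i j : Fin k =>
      ∑ e, a e (I i) * a e (I j)).det : ℤ) : ℝ) = (Q * Q.conjTranspose).det := by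
    rw [← hQ]
    have := (Int.castRingHom ℝ).map_det
      (Matrix.of fun i j : Fin k => ∑ e, a e (I i) * a e (I j))
    simpa using this
  have h1 : (Q * Q.conjTranspose).det ≤ (d : ℝ) ^ k := by
    apply det_le_pow (Matrix.posSemidef_self_mul_conjTranspose Q)
    · exact_mod_cast hd1
    · intro i
      rw [← hQ]
      simp only [Matrix.map_apply, Matrix.of_apply]
      have h2 := hd (I i)
      have h3 : ∑ e, a e (I i) * a e (I i) = ∑ e, a e (I i) ^ 2 := by
        apply sum_congr rfl
        intro e _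
        ring
      rw [h3]
      exact_mod_cast h2
  calc ((gramZ (fun i => ((b i : LinearMap.ker (bdA a)) : E → ℤ))).det : ℝ)
      ≤ (((Matrix.of fun i j : Fin k =>
      ∑ e, a e (I i) * a e (I j)).det : ℤ) : ℝ) := by exact_mod_cast h
    _ ≤ (d : ℝ) ^ k := by rw [hdet]; exact h1
    _ ≤ (d : ℝ) ^ Fintype.card V := by
        apply pow_le_pow_right₀ _ hk
        exact_mod_cast hd1

end Pool.Agent.helper275_flow
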