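import Pool.Agent.helper275_flow.Dual

/-!
# Graphs of bounded degree without short flows
-/

open Finset

set_option linter.unusedSectionVars false

namespace Pool.Agent.helper275_flow

lemma mem_ball_succ {V E : Type} [Fintype V] [DecidableEq V] [Fintype E] [DecidableEq E]
    {s t : E → V} {A : Finset E} {U : Finset V} {v : V} {k : ℕ} {u : V} :
    u ∈ ball s t A U v (k + 1) ↔ u ∈ ball s t A U v k ∨ (u ∈ U ∧ ∃ e ∈ EU s t A U,
      (s e ∈ ball s t A U v k ∧ t e = u) ∨ (t e ∈ ball s t A U v k ∧ s e = u)) := by
  rw [ball.eq_2, mem_union, mem_filter]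

variable {N : ℕ}

/-- degree, loops count twice -/
def dg {m : ℕ} (s t : Fin m → Fin N) (v : Fin N) : ℕ :=
  ∑ e, ((if s e = v then 1 else 0) + (if t e = v then 1 else 0))

/-- degrees at most eight and all flows long -/
def Nice (K : ℕ) {m : ℕ} (s t : Fin m → Fin N) : Prop :=
  (∀ v, dg s t v ≤ 8) ∧ ∀ x : Fin m → ℤ, bd s t x = 0 → x ≠ 0 → (K : ℤ) + 1 ≤ ∑ e, x e ^ 2

lemma dg_cons {m : ℕ} (s t : Fin m → Fin N) (a b v : Fin N) :
    dg (Fin.cons a s : Fin (m + 1) → Fin N) (Fin.cons b t : Fin (m + 1) → Fin N) v =
      ((if a = v then 1 else 0) + (if b = v then 1 else 0)) + dg s t v := by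
  rw [dg, Fin.sum_univ_succ]
  simp [dg]

lemma bd_cons {m : ℕ} (s t : Fin m → Fin N) (a b : Fin N) (x : Fin (m + 1) → ℤ) (v : Fin N) :
    bd (Fin.cons a s : Fin (m + 1) → Fin N) (Fin.cons b t : Fin (m + 1) → Fin N) x v =
      x 0 * ((if b = v then 1 else 0) - (if a = v then 1 else 0)) +
        bd s t (fun e => x e.succ) v := by
  rw [bd_apply, Fin.sum_univ_succ, bd_apply]
  simp [inc]

/-- ball sizes -/
lemma card_ball_le {m : ℕ} {s t : Fin m → Fin N} (hdeg : ∀ v, dg s t v ≤ 8) (a : Fin N) (k : ℕ) :
    (ball s t univ univ a k).card ≤ 9 ^ k := by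
  induction k with
  | zero => simp [ball]
  | succ k ih =>
    set B := ball s t univ univ a k with hB
    have h1 : ball s t univ univ a (k + 1) ⊆
        B ∪ B.biUnion fun v => (univ.filter fun e => s e = v).image t ∪
          (univ.filter fun e => t e = v).image s := by
      intro u hu
      rw [mem_ball_succ] at hu
      rw [mem_union]
      rcases hu with hu | ⟨-, e, -, h | h⟩
      · exact Or.inl hu
      · right
        rw [mem_biUnion]
        refine ⟨s e, h.1, ?_⟩
        rw [mem_union, mem_image, mem_image]
        exact Or.inl ⟨e, by simp, h.2⟩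
      · right
        rw [mem_biUnion]
        refine ⟨t e, h.1, ?_⟩
        rw [mem_union, mem_image, mem_image]
        exact Or.inr ⟨e, by simp, h.2⟩
    have h2 : (B.biUnion fun v => (univ.filter fun e => s e = v).image t ∪
          (univ.filter fun e => t e = v).image s).card ≤ B.card * 8 := by
      apply card_biUnion_le_card_mul
      intro v _
      refine (card_union_le _ _).trans ?_
      have h3 : ((univ.filter fun e => s e = v).image t).card ≤ (univ.filter fun e => s e = v).card :=
        card_image_le
      have h4 : ((univ.filter fun e => t e = v).image s).card ≤ (univ.filter fun e => t e = v).card :=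
        card_image_le
      have h5 := hdeg v
      rw [dg, sum_add_distrib, ← card_filter, ← card_filter] at h5
      omega
    have h3 := card_le_card h1
    have h4 := card_union_le B (B.biUnion fun v => (univ.filter fun e => s e = v).image t ∪
          (univ.filter fun e => t e = v).image s)
    rw [pow_succ, mul_comm]
    omega

lemma ball_mono_le {m : ℕ} {s t : Fin m → Fin N} (a : Fin N) {i j : ℕ} (h : i ≤ j) :
    ball s t univ univ a i ⊆ ball s t univ univ a j := by
  induction h with
  | refl => exact Subset.refl _
  | step _ ih => exact ih.trans (ball_mono _)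

/-- the truncated distance from `a` -/
def pot {m : ℕ} (s t : Fin m → Fin N) (a : Fin N) (K : ℕ) (u : Fin N) : ℤ :=
  ((range K).filter fun k => u ∉ ball s t univ univ a k).card

lemma pot_centre {m : ℕ} (s t : Fin m → Fin N) (a : Fin N) (K : ℕ) : pot s t a K a = 0 := by
  have h : ∀ k, a ∈ ball s t univ univ a k := fun k =>
    ball_mono_le a (Nat.zero_le k) (by simp [ball])
  rw [pot]
  have : ((range K).filter fun k => a ∉ ball s t univ univ a k) = ∅ := by
    rw [filter_eq_empty_iff]
    intro k _
    simp [h k]
  rw [this]
  rfl

lemma pot_far {m : ℕ} (s t : Fin m → Fin N) (a b : Fin N) (K : ℕ)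
    (hb : b ∉ ball s t univ univ a (K - 1)) : pot s t a K b = K := by
  rw [pot]
  have : ((range K).filter fun k => b ∉ ball s t univ univ a k) = range K := by
    rw [filter_eq_self]
    intro k hk
    rw [mem_range] at hk
    intro h
    exact hb (ball_mono_le a (by omega) h)
  rw [this, card_range]

lemma pot_step {m : ℕ} (s t : Fin m → Fin N) (a : Fin N) (K : ℕ) {u u' : Fin N}
    (h : ∀ k, u ∈ ball s t univ univ a k → u' ∈ ball s t univ univ a (k + 1)) :
    pot s t a K u' ≤ pot s t a K u + 1 := by
  rw [pot, pot]
  have h1 : ((range K).filter fun k => u' ∉ ball s t univ univ a k) ⊆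
      insert 0 (((range K).filter fun k => u ∉ ball s t univ univ a k).image (· + 1)) := by
    intro k hk
    rw [mem_filter, mem_range] at hk
    rw [mem_insert, mem_image]
    rcases Nat.eq_zero_or_pos k with h0 | h0
    · exact Or.inl h0
    · right
      refine ⟨k - 1, ?_, by omega⟩
      rw [mem_filter, mem_range]
      refine ⟨by omega, fun hu => ?_⟩
      apply hk.2
      have := h (k - 1) hu
      rwa [Nat.sub_add_cancel h0] at this
  have h2 := card_le_card h1
  have h3 := card_insert_le 0
    (((range K).filter fun k => u ∉ ball s t univ univ a k).image (· + 1))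
  have h4 : (((range K).filter fun k => u ∉ ball s t univ univ a k).image (· + 1)).card ≤
      ((range K).filter fun k => u ∉ ball s t univ univ a k).card := card_image_le
  have h5 : ((range K).filter fun k => u' ∉ ball s t univ univ a k).card ≤
      ((range K).filter fun k => u ∉ ball s t univ univ a k).card + 1 := by omega
  exact_mod_cast h5

lemma pot_edge {m : ℕ} (s t : Fin m → Fin N) (a : Fin N) (K : ℕ) (e : Fin m) :
    |pot s t a K (t e) - pot s t a K (s e)| ≤ 1 := by
  have h1 : pot s t a K (t e) ≤ pot s t a K (s e) + 1 := by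
    apply pot_step
    intro k hk
    rw [mem_ball_succ]
    right
    exact ⟨mem_univ _, e, by simp [EU], Or.inl ⟨hk, rfl⟩⟩
  have h2 : pot s t a K (s e) ≤ pot s t a K (t e) + 1 := by
    apply pot_step
    intro k hk
    rw [mem_ball_succ]
    right
    exact ⟨mem_univ _, e, by simp [EU], Or.inr ⟨hk, rfl⟩⟩
  rw [abs_le]
  constructor <;> linarith

/-- adding an edge between two far vertices -/
lemma nice_add {K m : ℕ} {s t : Fin m → Fin N} (h : Nice K s t) {a b : Fin N} (ha : dg s t a < 8)
    (hb : dg s t b < 8) (hab : a ≠ b) (hfar : b ∉ ball s t univ univ a (K - 1)) :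
    Nice K (Fin.cons a s : Fin (m + 1) → Fin N) (Fin.cons b t : Fin (m + 1) → Fin N) := by
  refine ⟨fun v => ?_, fun x hx hne => ?_⟩
  · rw [dg_cons]
    have h1 := h.1 v
    by_cases hav : a = v
    · have hbv : b ≠ v := fun h' => hab (hav.trans h'.symm)
      rw [if_pos hav, if_neg hbv]
      subst hav
      omega
    · rw [if_neg hav]
      by_cases hbv : b = v
      · rw [if_pos hbv]
        subst hbv
        omega
      · rw [if_neg hbv]
        omega
  · by_cases hx0 : x 0 = 0
    · rw [Fin.sum_univ_succ, hx0]
      have h1 := h.2 (fun e => x e.succ) (by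
        funext v
        have h2 := congrFun hx v
        rw [bd_cons, hx0, zero_mul, zero_add] at h2
        exact h2) (by
        intro h0
        apply hne
        funext e
        refine Fin.cases hx0 (fun e => ?_) e
        exact congrFun h0 e)
      simpa using h1
    · rw [Fin.sum_univ_succ]
      -- pair with the potential
      have h1 : ∑ e : Fin m, x e.succ * (pot s t a K (t e) - pot s t a K (s e)) = - x 0 * K := by
        have h2 : ∑ v, pot s t a K v * bd (Fin.cons a s : Fin (m + 1) → Fin N)
            (Fin.cons b t : Fin (m + 1) → Fin N) x v = 0 := by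
          rw [hx]
          simp
        have h3 : ∀ v, pot s t a K v * bd (Fin.cons a s : Fin (m + 1) → Fin N)
            (Fin.cons b t : Fin (m + 1) → Fin N) x v =
            x 0 * ((if b = v then pot s t a K v else 0) - (if a = v then pot s t a K v else 0)) +
            ∑ e : Fin m, x e.succ * ((if t e = v then pot s t a K v else 0) -
              (if s e = v then pot s t a K v else 0)) := by
          intro v
          rw [bd_cons, mul_add, bd_apply, mul_sum]
          congr 1
          · split_ifs <;> ring
          · apply sum_congr rfl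
            intro e _
            rw [inc]
            split_ifs <;> ring
        rw [sum_congr rfl (fun v _ => h3 v), sum_add_distrib, ← mul_sum, sum_sub_distrib,
          sum_comm] at h2
        have h4 : ∀ e : Fin m, ∑ v, x e.succ * ((if t e = v then pot s t a K v else 0) -
              (if s e = v then pot s t a K v else 0)) =
              x e.succ * (pot s t a K (t e) - pot s t a K (s e)) := by
          intro e
          rw [← mul_sum, sum_sub_distrib]
          simp
        rw [sum_congr rfl (fun e _ => h4 e)] at h2
        simp only [sum_ite_eq, mem_univ, if_true] at h2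
        rw [pot_centre, pot_far s t a b K hfar] at h2
        linarith
      have h2 : |x 0| * K ≤ ∑ e : Fin m, x e.succ ^ 2 := by
        calc |x 0| * K = |- x 0 * K| := by rw [abs_mul, abs_neg, Nat.abs_cast]
          _ = |∑ e : Fin m, x e.succ * (pot s t a K (t e) - pot s t a K (s e))| := by rw [h1]
          _ ≤ ∑ e : Fin m, |x e.succ * (pot s t a K (t e) - pot s t a K (s e))| :=
              abs_sum_le_sum_abs _ _
          _ ≤ ∑ e : Fin m, x e.succ ^ 2 := by
              apply sum_le_sum
              intro e _
              rw [abs_mul]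
              have h3 := pot_edge s t a K e
              have h4 : |x e.succ| ≤ x e.succ ^ 2 := by
                rw [← sq_abs]
                rcases eq_or_ne (x e.succ) 0 with h0 | h0
                · rw [h0]; simp
                · have := Int.one_le_abs h0
                  nlinarith
              calc |x e.succ| * |pot s t a K (t e) - pot s t a K (s e)| ≤ |x e.succ| * 1 :=
                    mul_le_mul_of_nonneg_left h3 (abs_nonneg _)
                _ ≤ x e.succ ^ 2 := by rw [mul_one]; exact h4
      have h3 : 1 ≤ |x 0| := Int.one_le_abs hx0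
      have h4 : 1 ≤ x 0 ^ 2 := by
        rw [← sq_abs]; nlinarith
      have h5 : (0 : ℤ) ≤ K := Int.natCast_nonneg K
      nlinarith

lemma sum_dg {m : ℕ} (s t : Fin m → Fin N) : ∑ v, dg s t v = 2 * m := by
  simp only [dg]
  rw [sum_comm]
  have : ∀ e : Fin m, ∑ v, ((if s e = v then 1 else 0) + (if t e = v then 1 else 0)) = 2 := by
    intro e
    rw [sum_add_distrib]
    simp
  rw [sum_congr rfl (fun e _ => this e)]
  simp [mul_comm]

/-- **graphs with many edges and no short flows** -/
theorem exists_nice {K : ℕ} (hN : 2 * 9 ^ (K - 1) ≤ N) :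
    ∃ (m : ℕ) (s t : Fin m → Fin N), 2 * N ≤ m ∧ Nice K s t := by
  classical
  let P : ℕ → Prop := fun m => ∃ s t : Fin m → Fin N, Nice K s t
  have hN0 : 0 < N := by
    have : 0 < 9 ^ (K - 1) := by positivity
    omega
  have hP0 : P 0 := by
    refine ⟨Fin.elim0, Fin.elim0, fun v => by simp [dg], fun x _ hne => ?_⟩
    exact absurd (Subsingleton.elim x 0) hne
  have hbound : ∀ m, P m → m ≤ 4 * N := by
    rintro m ⟨s, t, h⟩
    have h1 := sum_dg s t
    have h2 : ∑ v, dg s t v ≤ ∑ _v : Fin N, 8 := sum_le_sum fun v _ => h.1 v
    rw [sum_const, card_univ, Fintype.card_fin, smul_eq_mul] at h2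
    omega
  let m := Nat.findGreatest P (4 * N)
  have hPm : P m := Nat.findGreatest_spec (Nat.zero_le _) hP0
  have hmax : ¬ P (m + 1) := by
    intro h
    have h1 := hbound _ h
    have h2 : m + 1 ≤ m := Nat.le_findGreatest h1 h
    omega
  obtain ⟨s, t, h⟩ := hPm
  refine ⟨m, s, t, ?_, h⟩
  let S : Finset (Fin N) := univ.filter fun v => dg s t v < 8
  have hS : S.card ≤ 9 ^ (K - 1) := by
    by_cases hne : S.Nonempty
    · obtain ⟨a, ha⟩ := hne
      refine le_trans (card_le_card ?_) (card_ball_le h.1 a (K - 1))
      intro b hb
      by_contra hfar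
      apply hmax
      have hab : a ≠ b := by
        rintro rfl
        exact hfar (ball_mono_le a (Nat.zero_le _) (by simp [ball]))
      exact ⟨_, _, nice_add h (mem_filter.1 ha).2 (mem_filter.1 hb).2 hab hfar⟩
    · rw [not_nonempty_iff_eq_empty] at hne
      rw [hne]
      simp
  have h1 := sum_dg s t
  have h2 : 8 * (univ \ S).card ≤ ∑ v, dg s t v := by
    calc 8 * (univ \ S).card = ∑ _v ∈ univ \ S, 8 := by rw [sum_const, smul_eq_mul, mul_comm]
      _ ≤ ∑ v ∈ univ \ S, dg s t v := by
          apply sum_le_sum
          intro v hv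
          by_contra hlt
          rw [mem_sdiff] at hv
          apply hv.2
          rw [mem_filter]
          exact ⟨mem_univ _, not_le.1 hlt⟩
      _ ≤ ∑ v, dg s t v := sum_le_sum_of_subset (subset_univ _)
  have h3 : (univ \ S).card = N - S.card := by
    rw [card_sdiff_of_subset (subset_univ S), card_univ, Fintype.card_fin]
  omega

end Pool.Agent.helper275_flow
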