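import Mathlib

/-!
# Flows on multigraphs: nullity of graphs without short integer flows

`FA s t A` is the group of integer flows supported on the edge set `A`. If every nonzero flow
supported on `A` has squared length more than `3 (2R+1)` and `(1+ε)^R > |A|+1`, then the rank of
`FA s t A` is at most `2 ε |A|` (ball growing).
-/

open Finset

set_option linter.unusedSectionVars false

namespace Pool.Agent.helper275_flow

variable {V E : Type} [Fintype V] [DecidableEq V] [Fintype E] [DecidableEq E]

/-- signed incidence -/
def inc (s t : E → V) (e : E) (v : V) : ℤ := (if t e = v then 1 else 0) - (if s e = v then 1 else 0)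

/-- boundary map -/
def bd (s t : E → V) : (E → ℤ) →ₗ[ℤ] (V → ℤ) where
  toFun := fun x v => ∑ e, x e * inc s t e v
  map_add' := by
    intro x y
    funext v
    simp only [Pi.add_apply, add_mul, sum_add_distrib]
  map_smul' := by
    intro c x
    funext v
    simp only [Pi.smul_apply, smul_eq_mul, mul_assoc, mul_sum, RingHom.id_apply]

lemma bd_apply (s t : E → V) (x : E → ℤ) (v : V) : bd s t x v = ∑ e, x e * inc s t e v := rfl

/-- flows supported on `A` -/
def FA (s t : E → V) (A : Finset E) : Submodule ℤ (E → ℤ) where
  carrier := {x | (∀ e, e ∉ A → x e = 0) ∧ bd s t x = 0}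
  zero_mem' := ⟨fun _ _ => rfl, map_zero _⟩
  add_mem' := by
    rintro x y ⟨hx, hx'⟩ ⟨hy, hy'⟩
    refine ⟨fun e he => ?_, ?_⟩
    · rw [Pi.add_apply, hx e he, hy e he, add_zero]
    · rw [map_add, hx', hy', add_zero]
  smul_mem' := by
    rintro c x ⟨hx, hx'⟩
    refine ⟨fun e he => ?_, ?_⟩
    · rw [Pi.smul_apply, hx e he, smul_zero]
    · rw [map_smul, hx', smul_zero]

lemma mem_FA {s t : E → V} {A : Finset E} {x : E → ℤ} :
    x ∈ FA s t A ↔ (∀ e, e ∉ A → x e = 0) ∧ bd s t x = 0 := Iff.rfl

lemma FA_mono {s t : E → V} {A B : Finset E} (h : A ⊆ B) : FA s t A ≤ FA s t B := by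
  intro x hx
  exact ⟨fun e he => hx.1 e (fun h' => he (h h')), hx.2⟩

omit [Fintype V] [DecidableEq V] [Fintype E] [DecidableEq E] in
lemma rank_nullity_int {M N : Type} [AddCommGroup M] [AddCommGroup N] [Module.Finite ℤ M]
    (f : M →ₗ[ℤ] N) : Module.finrank ℤ (LinearMap.range f) + Module.finrank ℤ (LinearMap.ker f) =
      Module.finrank ℤ M := by
  rw [← Submodule.finrank_quotient_add_finrank (LinearMap.ker f), f.quotKerEquivRange.finrank_eq]

/-- rank of a submodule drops by at most one on a coordinate hyperplane -/
lemma finrank_le_succ (K : Submodule ℤ (E → ℤ)) (e : E) (K' : Submodule ℤ (E → ℤ))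
    (h : ∀ x ∈ K, x e = 0 → x ∈ K') : Module.finrank ℤ K ≤ Module.finrank ℤ K' + 1 := by
  let f : K →ₗ[ℤ] ℤ := (LinearMap.proj e).comp K.subtype
  have h1 := rank_nullity_int f
  have h2 : Module.finrank ℤ (LinearMap.range f) ≤ 1 := by
    have := Submodule.finrank_le (LinearMap.range f)
    simpa using this
  have h3 : Module.finrank ℤ (LinearMap.ker f) ≤ Module.finrank ℤ K' := by
    let g : LinearMap.ker f →ₗ[ℤ] K' :=
      LinearMap.codRestrict K' (K.subtype.comp (LinearMap.ker f).subtype) (by
        intro x
        apply h _ x.1.2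
        exact x.2)
    apply LinearMap.finrank_le_finrank_of_injective (f := g)
    intro x y hxy
    have : ((x.1 : K) : E → ℤ) = ((y.1 : K) : E → ℤ) := congrArg (fun z : K' => (z : E → ℤ)) hxy
    exact Subtype.ext (Subtype.ext this)
  omega

lemma finrank_FA_sdiff (s t : E → V) (A D : Finset E) :
    Module.finrank ℤ (FA s t A) ≤ D.card + Module.finrank ℤ (FA s t (A \ D)) := by
  induction D using Finset.induction_on with
  | empty => rw [sdiff_empty]; simp
  | insert e D he ih =>
    have h1 : Module.finrank ℤ (FA s t (A \ D)) ≤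
        Module.finrank ℤ (FA s t (A \ insert e D)) + 1 := by
      apply finrank_le_succ _ e
      intro x hx hxe
      refine ⟨fun g hg => ?_, hx.2⟩
      by_cases hge : g = e
      · rw [hge]; exact hxe
      · apply hx.1
        intro h'
        apply hg
        rw [mem_sdiff] at h' ⊢
        refine ⟨h'.1, ?_⟩
        rw [mem_insert]
        rintro (h2 | h2)
        · exact hge h2
        · exact h'.2 h2
    rw [card_insert_of_notMem he]
    omega

lemma finrank_FA_le (s t : E → V) (A : Finset E) : Module.finrank ℤ (FA s t A) ≤ A.card := by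
  have h := finrank_FA_sdiff s t A A
  have h0 : Module.finrank ℤ (FA s t (A \ A)) = 0 := by
    have : FA s t (A \ A) = ⊥ := by
      rw [eq_bot_iff]
      intro x hx
      rw [Submodule.mem_bot]
      funext e
      apply hx.1
      simp
    rw [this]
    exact finrank_bot ℤ _
  omega

/-- edges of `A` inside `U` -/
def EU (s t : E → V) (A : Finset E) (U : Finset V) : Finset E :=
  A.filter fun e => s e ∈ U ∧ t e ∈ U

lemma mem_EU {s t : E → V} {A : Finset E} {U : Finset V} {e : E} :
    e ∈ EU s t A U ↔ e ∈ A ∧ s e ∈ U ∧ t e ∈ U := by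
  simp [EU]

/-- balls in the graph induced on `U` -/
def ball (s t : E → V) (A : Finset E) (U : Finset V) (v : V) : ℕ → Finset V
  | 0 => {v}
  | (k + 1) => ball s t A U v k ∪ U.filter fun u => ∃ e ∈ EU s t A U,
      (s e ∈ ball s t A U v k ∧ t e = u) ∨ (t e ∈ ball s t A U v k ∧ s e = u)

lemma ball_subset {s t : E → V} {A : Finset E} {U : Finset V} {v : V} (hv : v ∈ U) (k : ℕ) :
    ball s t A U v k ⊆ U := by
  induction k with
  | zero => simpa [ball] using hv
  | succ k ih =>
    rw [ball]
    apply union_subset ih
    exact filter_subset _ _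

lemma ball_mono {s t : E → V} {A : Finset E} {U : Finset V} {v : V} (k : ℕ) :
    ball s t A U v k ⊆ ball s t A U v (k + 1) := by
  rw [ball.eq_2]
  exact subset_union_left

/-- paths from the centre -/
lemma exists_path {s t : E → V} {A : Finset E} {U : Finset V} {v : V} (k : ℕ) :
    ∀ u ∈ ball s t A U v k, ∃ P : E → ℤ, (∀ e, e ∉ EU s t A (ball s t A U v k) → P e = 0) ∧
      (∑ e, P e ^ 2 ≤ (k : ℤ)) ∧
      ∀ x, bd s t P x = (if u = x then 1 else 0) - (if v = x then 1 else 0) := by
  induction k with
  | zero =>
    intro u hu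
    have huv : u = v := by simpa [ball] using hu
    subst huv
    refine ⟨0, fun _ _ => rfl, by simp, fun x => by simp⟩
  | succ k ih =>
    intro u hu
    have hmono : EU s t A (ball s t A U v k) ⊆ EU s t A (ball s t A U v (k + 1)) := by
      intro e he
      rw [mem_EU] at he ⊢
      exact ⟨he.1, ball_mono k he.2.1, ball_mono k he.2.2⟩
    by_cases huk : u ∈ ball s t A U v k
    · obtain ⟨P, h1, h2, h3⟩ := ih u huk
      refine ⟨P, fun e he => h1 e (fun h => he (hmono h)), ?_, h3⟩
      push_cast
      linarith
    · have hu' := hu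
      rw [ball.eq_2, mem_union, mem_filter] at hu'
      rcases hu' with hu' | ⟨hU, e, he, hcase⟩
      · exact absurd hu' huk
      · have heA := (mem_EU.1 he).1
        have key : ∀ (u' : V) (c : ℤ), u' ∈ ball s t A U v k → c ^ 2 = 1 →
            (∀ x, c * inc s t e x = (if u = x then 1 else 0) - (if u' = x then 1 else 0)) →
            e ∉ EU s t A (ball s t A U v k) → e ∈ EU s t A (ball s t A U v (k + 1)) →
            ∃ P : E → ℤ, (∀ e, e ∉ EU s t A (ball s t A U v (k + 1)) → P e = 0) ∧
              (∑ e, P e ^ 2 ≤ ((k + 1 : ℕ) : ℤ)) ∧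
              ∀ x, bd s t P x = (if u = x then 1 else 0) - (if v = x then 1 else 0) := by
          intro u' c hu' hc hinc hn hm
          obtain ⟨P, h1, h2, h3⟩ := ih u' hu'
          have hPe : P e = 0 := h1 e hn
          refine ⟨P + Pi.single e c, ?_, ?_, ?_⟩
          · intro g hg
            have hge : g ≠ e := by rintro rfl; exact hg hm
            rw [Pi.add_apply, Pi.single_eq_of_ne hge, h1 g (fun h => hg (hmono h)), add_zero]
          · have : ∀ g, (P + Pi.single e c : E → ℤ) g ^ 2 = P g ^ 2 + (if g = e then 1 else 0) := by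
              intro g
              by_cases hge : g = e
              · subst hge
                rw [Pi.add_apply, Pi.single_eq_same, hPe, if_pos rfl]
                rw [zero_add, hc]
                norm_num
              · rw [Pi.add_apply, Pi.single_eq_of_ne hge, if_neg hge, add_zero, add_zero]
            rw [Finset.sum_congr rfl (fun g _ => this g), sum_add_distrib]
            simp only [sum_ite_eq', mem_univ, if_true]
            push_cast
            linarith
          · intro x
            rw [map_add, Pi.add_apply, h3 x]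
            have : bd s t (Pi.single e c) x = c * inc s t e x := by
              rw [bd_apply]
              rw [Finset.sum_eq_single e]
              · rw [Pi.single_eq_same]
              · intro g _ hge
                rw [Pi.single_eq_of_ne hge, zero_mul]
              · intro h; exact absurd (mem_univ _) h
            rw [this, hinc x]
            ring
        rcases hcase with ⟨hs, ht⟩ | ⟨ht, hs⟩
        · apply key (s e) 1 hs (by norm_num)
          · intro x
            rw [one_mul, inc, ht]
          · intro h
            apply huk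
            rw [← ht]
            exact (mem_EU.1 h).2.2
          · rw [mem_EU]
            refine ⟨heA, ball_mono k hs, ?_⟩
            rw [ht]; exact hu
        · apply key (t e) (-1) ht (by norm_num)
          · intro x
            rw [inc, hs]
            ring
          · intro h
            apply huk
            rw [← hs]
            exact (mem_EU.1 h).2.1
          · rw [mem_EU]
            refine ⟨heA, ?_, ball_mono k ht⟩
            rw [hs]; exact hu

/-- no flow inside a small ball -/
lemma FA_ball_eq_zero {s t : E → V} {A : Finset E} {U : Finset V} {v : V} {R k : ℕ} (hk : k ≤ R)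
    (H : ∀ x ∈ FA s t A, x ≠ 0 → 3 * (2 * (R : ℤ) + 1) < ∑ e, x e ^ 2) :
    ∀ x ∈ FA s t (EU s t A (ball s t A U v k)), x = 0 := by
  intro x hx
  choose! P hP1 hP2 hP3 using exists_path (s := s) (t := t) (A := A) (U := U) (v := v) k
  set B := EU s t A (ball s t A U v k) with hB
  have hc : ∀ e ∈ B, P (s e) + Pi.single e 1 - P (t e) = 0 := by
    intro e he
    by_contra hne
    have he' := mem_EU.1 he
    have hmem : P (s e) + Pi.single e 1 - P (t e) ∈ FA s t A := by
      refine ⟨?_, ?_⟩
      · intro g hg
        have hgB : g ∉ B := fun h => hg (mem_EU.1 h).1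
        have hge : g ≠ e := by rintro rfl; exact hgB he
        rw [Pi.sub_apply, Pi.add_apply, Pi.single_eq_of_ne hge, hP1 _ he'.2.1 g hgB,
          hP1 _ he'.2.2 g hgB]
        norm_num
      · funext z
        rw [map_sub, map_add, Pi.sub_apply, Pi.add_apply, hP3 _ he'.2.1 z, hP3 _ he'.2.2 z]
        have : bd s t (Pi.single e 1) z = inc s t e z := by
          rw [bd_apply]
          rw [Finset.sum_eq_single e]
          · rw [Pi.single_eq_same, one_mul]
          · intro g _ hge
            rw [Pi.single_eq_of_ne hge, zero_mul]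
          · intro h; exact absurd (mem_univ _) h
        rw [this, inc, Pi.zero_apply]
        ring
    have h1 := H _ hmem hne
    have h2 : ∑ g, (P (s e) + Pi.single e 1 - P (t e) : E → ℤ) g ^ 2 ≤
        ∑ g, (3 * P (s e) g ^ 2 + 3 * (if g = e then 1 else 0) + 3 * P (t e) g ^ 2) := by
      apply sum_le_sum
      intro g _
      by_cases hge : g = e
      · subst hge
        rw [Pi.sub_apply, Pi.add_apply, Pi.single_eq_same, if_pos rfl]
        nlinarith [sq_nonneg (P (s g) g - 1), sq_nonneg (P (s g) g + P (t g) g),
          sq_nonneg (1 + P (t g) g)]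
      · rw [Pi.sub_apply, Pi.add_apply, Pi.single_eq_of_ne hge, if_neg hge]
        nlinarith [sq_nonneg (P (s e) g + P (t e) g), sq_nonneg (P (s e) g), sq_nonneg (P (t e) g)]
    have h3 : ∑ g, (3 * P (s e) g ^ 2 + 3 * (if g = e then 1 else 0) + 3 * P (t e) g ^ 2) =
        3 * ∑ g, P (s e) g ^ 2 + 3 + 3 * ∑ g, P (t e) g ^ 2 := by
      rw [sum_add_distrib, sum_add_distrib, ← mul_sum, ← mul_sum, ← mul_sum]
      simp
    have h4 := hP2 _ he'.2.1
    have h5 := hP2 _ he'.2.2
    have h6 : (k : ℤ) ≤ R := by exact_mod_cast hk
    linarith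
  -- expand `x`
  have hx2 := hx.2
  funext f
  have e1 : x f = ∑ e, x e * (Pi.single e 1 : E → ℤ) f := by
    rw [Finset.sum_eq_single f]
    · rw [Pi.single_eq_same, mul_one]
    · intro g _ hgf
      rw [Pi.single_eq_of_ne (Ne.symm hgf), mul_zero]
    · intro h; exact absurd (mem_univ _) h
  have e2 : ∀ e, x e * (Pi.single e 1 : E → ℤ) f = x e * (P (t e) f - P (s e) f) := by
    intro e
    by_cases he : e ∈ B
    · have h := congrFun (hc e he) f
      rw [Pi.sub_apply, Pi.add_apply, Pi.zero_apply] at h
      have h' : (Pi.single e 1 : E → ℤ) f = P (t e) f - P (s e) f := by linarith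
      rw [h']
    · rw [hx.1 e he, zero_mul, zero_mul]
  have e3 : ∀ e, x e * (P (t e) f - P (s e) f) = ∑ u, x e * inc s t e u * P u f := by
    intro e
    have : ∀ u, x e * inc s t e u * P u f =
        (if t e = u then x e * P u f else 0) - (if s e = u then x e * P u f else 0) := by
      intro u
      rw [inc]
      split_ifs <;> ring
    rw [Finset.sum_congr rfl (fun u _ => this u), sum_sub_distrib]
    simp only [sum_ite_eq, mem_univ, if_true]
    ring
  rw [e1, Finset.sum_congr rfl (fun e _ => (e2 e).trans (e3 e)), sum_comm, Pi.zero_apply]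
  apply Finset.sum_eq_zero
  intro u _
  rw [← sum_mul]
  have : ∑ e, x e * inc s t e u = 0 := congrFun hx2 u
  rw [this, zero_mul]

/-- edges inside `U` leaving the ball of radius `k` -/
def dl (s t : E → V) (A : Finset E) (U : Finset V) (v : V) (k : ℕ) : Finset E :=
  (EU s t A U).filter fun e => ¬ (s e ∈ ball s t A U v k ↔ t e ∈ ball s t A U v k)

lemma card_step {s t : E → V} {A : Finset E} {U : Finset V} {v : V} (k : ℕ) :
    (EU s t A (ball s t A U v k)).card + (dl s t A U v k).card ≤
      (EU s t A (ball s t A U v (k + 1))).card := by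
  rw [← card_union_of_disjoint]
  · apply card_le_card
    intro e he
    rw [mem_union] at he
    rcases he with he | he
    · rw [mem_EU] at he ⊢
      exact ⟨he.1, ball_mono k he.2.1, ball_mono k he.2.2⟩
    · rw [dl, mem_filter] at he
      obtain ⟨he, hne⟩ := he
      have he' := mem_EU.1 he
      rw [mem_EU]
      by_cases hs : s e ∈ ball s t A U v k
      · refine ⟨he'.1, ball_mono k hs, ?_⟩
        rw [ball.eq_2, mem_union, mem_filter]
        right
        exact ⟨he'.2.2, e, he, Or.inl ⟨hs, rfl⟩⟩
      · have ht : t e ∈ ball s t A U v k := by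
          by_contra ht
          exact hne ⟨fun h => absurd h hs, fun h => absurd h ht⟩
        refine ⟨he'.1, ?_, ball_mono k ht⟩
        rw [ball.eq_2, mem_union, mem_filter]
        right
        exact ⟨he'.2.1, e, he, Or.inr ⟨ht, rfl⟩⟩
  · rw [disjoint_left]
    intro e he he'
    rw [dl, mem_filter] at he'
    rw [mem_EU] at he
    exact he'.2 ⟨fun _ => he.2.2, fun _ => he.2.1⟩

lemma exists_radius {s t : E → V} {A : Finset E} {U : Finset V} {v : V} {R : ℕ} {ε : ℝ}
    (hε : 0 < ε) (hR : (A.card : ℝ) + 1 < (1 + ε) ^ R) :
    ∃ k, k ≤ R ∧ ((dl s t A U v k).card : ℝ) ≤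
      ε * ((EU s t A (ball s t A U v k)).card + 1) := by
  by_contra hcon
  push Not at hcon
  have h : ∀ k, k ≤ R → (1 + ε) ^ k ≤ ((EU s t A (ball s t A U v k)).card : ℝ) + 1 := by
    intro k
    induction k with
    | zero =>
      intro _
      rw [pow_zero]
      have : (0 : ℝ) ≤ ((EU s t A (ball s t A U v 0)).card : ℝ) := Nat.cast_nonneg _
      linarith
    | succ k ih =>
      intro hk
      have h1 := ih (by omega)
      have h2 := hcon k (by omega)
      have h3 : ((EU s t A (ball s t A U v k)).card : ℝ) + ((dl s t A U v k).card : ℝ) ≤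
          ((EU s t A (ball s t A U v (k + 1))).card : ℝ) := by
        exact_mod_cast card_step (s := s) (t := t) (A := A) (U := U) (v := v) k
      rw [pow_succ]
      nlinarith
  have h1 := h R le_rfl
  have h2 : ((EU s t A (ball s t A U v R)).card : ℝ) ≤ A.card := by
    exact_mod_cast card_le_card (filter_subset _ _)
  linarith

lemma FA_split {s t : E → V} {A : Finset E} {U : Finset V} {v : V} {R k : ℕ} (hk : k ≤ R)
    (H : ∀ x ∈ FA s t A, x ≠ 0 → 3 * (2 * (R : ℤ) + 1) < ∑ e, x e ^ 2) :
    FA s t (EU s t A U \ dl s t A U v k) ≤ FA s t (EU s t A (U \ ball s t A U v k)) := by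
  intro x hx
  set B := ball s t A U v k with hB
  -- edges carrying flow do not leave the ball
  have hcase : ∀ e, x e ≠ 0 → e ∈ EU s t A U ∧ (s e ∈ B ↔ t e ∈ B) := by
    intro e he
    have h1 : e ∈ EU s t A U \ dl s t A U v k := by
      by_contra h
      exact he (hx.1 e h)
    rw [mem_sdiff, dl, mem_filter] at h1
    refine ⟨h1.1, ?_⟩
    by_contra h
    exact h1.2 ⟨h1.1, h⟩
  let y : E → ℤ := fun e => if e ∈ EU s t A B then x e else 0
  have hy : y ∈ FA s t (EU s t A B) := by
    refine ⟨fun e he => if_neg he, ?_⟩
    funext u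
    by_cases hu : u ∈ B
    · have : bd s t y u = bd s t x u := by
        rw [bd_apply, bd_apply]
        apply sum_congr rfl
        intro e _
        by_cases he : e ∈ EU s t A B
        · simp only [y, if_pos he]
        · simp only [y, if_neg he, zero_mul]
          by_cases hxe : x e = 0
          · rw [hxe, zero_mul]
          · obtain ⟨h1, h2⟩ := hcase e hxe
            have h3 : s e ∉ B := by
              intro h
              apply he
              rw [mem_EU]
              exact ⟨(mem_EU.1 h1).1, h, h2.1 h⟩
            have h4 : t e ∉ B := fun h => h3 (h2.2 h)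
            have h5 : inc s t e u = 0 := by
              rw [inc, if_neg (by rintro rfl; exact h4 hu), if_neg (by rintro rfl; exact h3 hu),
                sub_zero]
            rw [h5, mul_zero]
      rw [this, hx.2]
    · rw [bd_apply, Pi.zero_apply]
      apply sum_eq_zero
      intro e _
      by_cases he : e ∈ EU s t A B
      · have h1 := mem_EU.1 he
        have h5 : inc s t e u = 0 := by
          rw [inc, if_neg (by rintro rfl; exact hu h1.2.2), if_neg (by rintro rfl; exact hu h1.2.1),
            sub_zero]
        rw [h5, mul_zero]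
      · simp only [y, if_neg he, zero_mul]
  have hy0 : y = 0 := FA_ball_eq_zero hk H y hy
  refine ⟨fun e he => ?_, hx.2⟩
  by_contra hxe
  obtain ⟨h1, h2⟩ := hcase e hxe
  have h1' := mem_EU.1 h1
  by_cases hs : s e ∈ B
  · have h3 : e ∈ EU s t A B := mem_EU.2 ⟨h1'.1, hs, h2.1 hs⟩
    have h4 := congrFun hy0 e
    simp only [y, if_pos h3, Pi.zero_apply] at h4
    exact hxe h4
  · apply he
    rw [mem_EU, mem_sdiff, mem_sdiff]
    exact ⟨h1'.1, ⟨h1'.2.1, hs⟩, ⟨h1'.2.2, fun h => hs (h2.2 h)⟩⟩

/-- **Ball growing.** -/
theorem nullity_le {s t : E → V} {A : Finset E} {R : ℕ} {ε : ℝ}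
    (hε : 0 < ε) (hε1 : ε < 1) (hR : (A.card : ℝ) + 1 < (1 + ε) ^ R)
    (H : ∀ x ∈ FA s t A, x ≠ 0 → 3 * (2 * (R : ℤ) + 1) < ∑ e, x e ^ 2) :
    ∀ (n : ℕ) (U : Finset V), U.card = n →
      (Module.finrank ℤ (FA s t (EU s t A U)) : ℝ) ≤ 2 * ε * (EU s t A U).card := by
  intro n
  induction n using Nat.strong_induction_on with
  | _ n ih =>
    intro U hU
    rcases U.eq_empty_or_nonempty with hUe | ⟨v, hv⟩
    · have h0 : EU s t A U = ∅ := by
        rw [hUe]
        ext e
        simp [EU]
      have h1 := finrank_FA_le s t (EU s t A U)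
      rw [h0] at h1 ⊢
      rw [card_empty] at h1
      have h2 : Module.finrank ℤ (FA s t (∅ : Finset E)) = 0 := by omega
      rw [h2]
      simp
    · obtain ⟨k, hk, hcut⟩ := exists_radius (s := s) (t := t) (A := A) (U := U) (v := v) hε hR
      set B := ball s t A U v k with hB
      have hvB : v ∈ B := by
        rw [hB]
        clear hcut hB B hk
        induction k with
        | zero => simp [ball]
        | succ k ih => exact ball_mono k ih
      have hBU : B ⊆ U := ball_subset hv k
      have hlt : (U \ B).card < n := by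
        rw [← hU]
        apply card_lt_card
        refine ⟨sdiff_subset, fun h => ?_⟩
        have := h hv
        rw [mem_sdiff] at this
        exact this.2 hvB
      have h1 := ih _ hlt (U \ B) rfl
      have h2 := finrank_FA_sdiff s t (EU s t A U) (dl s t A U v k)
      have h3 : Module.finrank ℤ (FA s t (EU s t A U \ dl s t A U v k)) ≤
          Module.finrank ℤ (FA s t (EU s t A (U \ B))) :=
        Submodule.finrank_mono (FA_split hk H)
      have h4 : (Module.finrank ℤ (FA s t (EU s t A U)) : ℝ) ≤ (dl s t A U v k).card +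
          (Module.finrank ℤ (FA s t (EU s t A (U \ B))) : ℝ) := by
        exact_mod_cast h2.trans (Nat.add_le_add_left h3 _)
      have h5 : (EU s t A B).card + (EU s t A (U \ B)).card ≤ (EU s t A U).card := by
        rw [← card_union_of_disjoint]
        · apply card_le_card
          intro e he
          rw [mem_union, mem_EU, mem_EU] at he
          rw [mem_EU]
          rcases he with he | he
          · exact ⟨he.1, hBU he.2.1, hBU he.2.2⟩
          · exact ⟨he.1, (mem_sdiff.1 he.2.1).1, (mem_sdiff.1 he.2.2).1⟩
        · rw [disjoint_left]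
          intro e he he'
          rw [mem_EU] at he he'
          exact (mem_sdiff.1 he'.2.1).2 he.2.1
      have h5' : ((EU s t A B).card : ℝ) + ((EU s t A (U \ B)).card : ℝ) ≤
          ((EU s t A U).card : ℝ) := by exact_mod_cast h5
      have h6 : ((dl s t A U v k).card : ℝ) ≤ 2 * ε * (EU s t A B).card := by
        rcases Nat.eq_zero_or_pos (EU s t A B).card with h0 | h0
        · rw [h0] at hcut ⊢
          have : ((dl s t A U v k).card : ℝ) < 1 := by
            simp only [Nat.cast_zero, zero_add, mul_one] at hcut
            linarith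
          have h7 : (dl s t A U v k).card = 0 := by
            have : (dl s t A U v k).card < 1 := by exact_mod_cast this
            omega
          rw [h7]
          simp
        · have : (1 : ℝ) ≤ (EU s t A B).card := by exact_mod_cast h0
          nlinarith
      nlinarith

/-- Nullity bound for the whole edge set `A`. -/
theorem nullity_le' {s t : E → V} {A : Finset E} {R : ℕ} {ε : ℝ}
    (hε : 0 < ε) (hε1 : ε < 1) (hR : (A.card : ℝ) + 1 < (1 + ε) ^ R)
    (H : ∀ x ∈ FA s t A, x ≠ 0 → 3 * (2 * (R : ℤ) + 1) < ∑ e, x e ^ 2) :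
    (Module.finrank ℤ (FA s t A) : ℝ) ≤ 2 * ε * A.card := by
  have h := nullity_le hε hε1 hR H _ (univ : Finset V) rfl
  have h0 : EU s t A univ = A := by
    ext e
    simp [EU]
  rwa [h0] at h

end Pool.Agent.helper275_flow
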