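import Pool.Agent.helper275_flow.Core

/-!
# Suppressing vertices of degree at most two
-/

open Finset

set_option linter.unusedSectionVars false

namespace Pool.Agent.helper275_flow

/-- The statement for one lattice: every lower bound for the squared lengths is at most
`C log(r+1) det^{1/r}`. -/
def Good (C : ℝ) {E : Type} [Fintype E] [DecidableEq E] (K : Submodule ℤ (E → ℤ))
    (w : E → ℝ) : Prop :=
  ∀ (r : ℕ) (b : Module.Basis (Fin r) ℤ K), 0 < r → ∀ g : ℝ, 0 < g →
    (∀ x ∈ K, x ≠ 0 → g ≤ ∑ e, w e * (x e : ℝ) ^ 2) →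
    g ≤ C * Real.log ((r : ℝ) + 1) *
      (gramT w (fun i => ((b i : K) : E → ℤ)) univ).det ^ ((1 : ℝ) / r)

lemma good_transfer {C : ℝ} {E E' : Type} [Fintype E] [DecidableEq E] [Fintype E']
    [DecidableEq E'] {K : Submodule ℤ (E → ℤ)} {K' : Submodule ℤ (E' → ℤ)} {w : E → ℝ}
    {w' : E' → ℝ} (res : (E → ℤ) →ₗ[ℤ] (E' → ℤ)) (h1 : ∀ x ∈ K, res x ∈ K')
    (h2 : ∀ x ∈ K, res x = 0 → x = 0) (h3 : ∀ y ∈ K', ∃ x ∈ K, res x = y)
    (h4 : ∀ x ∈ K, ∀ z ∈ K, ∑ e, w e * (x e : ℝ) * (z e : ℝ) =
      ∑ e, w' e * (res x e : ℝ) * (res z e : ℝ)) (h : Good C K' w') : Good C K w := by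
  intro r b hr g hg hmin
  let f : K →ₗ[ℤ] K' := res.restrict h1
  have hf : Function.Bijective f := by
    constructor
    · rw [← LinearMap.ker_eq_bot, LinearMap.ker_eq_bot']
      intro x hx
      apply Subtype.ext
      apply h2 _ x.2
      exact congrArg Subtype.val hx
    · intro y
      obtain ⟨x, hx, hxy⟩ := h3 y.1 y.2
      exact ⟨⟨x, hx⟩, Subtype.ext hxy⟩
  let φ : K ≃ₗ[ℤ] K' := LinearEquiv.ofBijective f hf
  have hφ : ∀ x : K, ((φ x : K') : E' → ℤ) = res x := fun x => rfl
  have h5 := h r (b.map φ) hr g hg (by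
    intro y hy hne
    obtain ⟨x, hx, hxy⟩ := h3 y hy
    have hx0 : x ≠ 0 := by
      rintro rfl
      apply hne
      rw [← hxy, map_zero]
    have h6 := hmin x hx hx0
    have h7 := h4 x hx x hx
    rw [hxy] at h7
    calc g ≤ ∑ e, w e * (x e : ℝ) ^ 2 := h6
      _ = ∑ e, w e * (x e : ℝ) * (x e : ℝ) := by
          apply sum_congr rfl; intro e _; ring
      _ = ∑ e, w' e * (y e : ℝ) * (y e : ℝ) := h7
      _ = ∑ e, w' e * (y e : ℝ) ^ 2 := by
          apply sum_congr rfl; intro e _; ring)
  have h6 : gramT w' (fun i => (((b.map φ) i : K') : E' → ℤ)) univ =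
      gramT w (fun i => ((b i : K) : E → ℤ)) univ := by
    ext i j
    simp only [gramT, Matrix.of_apply, Module.Basis.map_apply, hφ]
    exact (h4 _ (b i).2 _ (b j).2).symm
  rwa [h6] at h5

variable {V : Type} [Fintype V] [DecidableEq V]

/-- non-loop edges at `v` -/
def nb {E : Type} [Fintype E] [DecidableEq E] (s t : E → V) (v : V) : Finset E :=
  univ.filter fun e => inc s t e v ≠ 0

/-- graphs without vertices with one or two non-loop edges -/
lemma good_of_reduced {E : Type} [Fintype E] [DecidableEq E] {s t : E → V} {w : E → ℝ}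
    (hw : ∀ e, 0 < w e) (hred : ∀ v, (nb s t v).card ≠ 1 ∧ (nb s t v).card ≠ 2) :
    Good (864 * Real.exp 1) (FA s t univ) w := by
  classical
  intro r b hr g hg hmin
  have hfr : Module.finrank ℤ (FA s t univ) = r := by
    rw [Module.finrank_eq_card_basis b, Fintype.card_fin]
  -- vertices with a non-loop edge
  let V' : Finset V := univ.filter fun v => (nb s t v).Nonempty
  have hV1 : 3 * V'.card ≤ ∑ v, (nb s t v).card := by
    calc 3 * V'.card = ∑ v ∈ V', 3 := by rw [sum_const, smul_eq_mul, mul_comm]
      _ ≤ ∑ v ∈ V', (nb s t v).card := by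
          apply sum_le_sum
          intro v hv
          have h1 := card_pos.2 (mem_filter.1 hv).2
          have h2 := hred v
          omega
      _ ≤ ∑ v, (nb s t v).card :=
          sum_le_sum_of_subset (subset_univ _)
  have hV2 : ∑ v, (nb s t v).card ≤ 2 * Fintype.card E := by
    have h1 : ∀ v, (nb s t v).card = ∑ e, if inc s t e v ≠ 0 then 1 else 0 := by
      intro v
      rw [nb, card_filter]
    rw [sum_congr rfl (fun v _ => h1 v), sum_comm]
    calc ∑ e, ∑ v, (if inc s t e v ≠ 0 then 1 else 0)
        ≤ ∑ e : E, ∑ v, ((if t e = v then 1 else 0) + (if s e = v then 1 else 0)) := by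
          apply sum_le_sum
          intro e _
          apply sum_le_sum
          intro v _
          by_cases h1 : t e = v <;> by_cases h2 : s e = v <;> simp [inc, h1, h2]
      _ = ∑ e : E, 2 := by
          apply sum_congr rfl
          intro e _
          rw [sum_add_distrib]
          simp
      _ = 2 * Fintype.card E := by
          rw [sum_const, smul_eq_mul, card_univ, mul_comm]
  have hm : Fintype.card E ≤ r + V'.card := by
    let f : (E → ℤ) →ₗ[ℤ] (V' → ℤ) :=
      { toFun := fun x v => bd s t x v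
        map_add' := by intro x y; rw [map_add]; rfl
        map_smul' := by intro c x; rw [map_smul]; rfl }
    have h1 := rank_nullity_int f
    have h2 : Module.finrank ℤ (LinearMap.range f) ≤ V'.card := by
      have := Submodule.finrank_le (LinearMap.range f)
      rwa [Module.finrank_pi, Fintype.card_coe] at this
    have h3 : LinearMap.ker f ≤ FA s t univ := by
      intro x hx
      rw [LinearMap.mem_ker] at hx
      refine ⟨fun e he => absurd (mem_univ e) he, ?_⟩
      funext v
      by_cases hv : v ∈ V'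
      · exact congrFun hx ⟨v, hv⟩
      · rw [bd_apply, Pi.zero_apply]
        apply sum_eq_zero
        intro e _
        have : inc s t e v = 0 := by
          by_contra hne
          apply hv
          rw [mem_filter]
          exact ⟨mem_univ _, e, by rw [nb, mem_filter]; exact ⟨mem_univ _, hne⟩⟩
        rw [this, mul_zero]
    have h4 := Submodule.finrank_mono h3
    rw [hfr] at h4
    rw [Module.finrank_pi] at h1
    omega
  have hm3 : Fintype.card E ≤ 3 * r := by omega
  have hcore := core hw hr b hg hmin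
  set D := (gramT w (fun i => ((b i : FA s t univ) : E → ℤ)) univ).det with hD
  have hE : 0 < Fintype.card E := by
    have h1 := finrank_FA_le s t (univ : Finset E)
    rw [hfr, card_univ] at h1
    omega
  set m : ℝ := (Fintype.card E : ℝ) with hmdef
  have hm3' : m ≤ 3 * r := by rw [hmdef]; exact_mod_cast hm3
  have hm1 : 1 ≤ m := by rw [hmdef]; exact_mod_cast hE
  have hr1 : (1 : ℝ) ≤ r := by exact_mod_cast hr
  have hlog : Real.log (m + 1) ≤ 2 * Real.log ((r : ℝ) + 1) := by
    have h1 : Real.log (m + 1) ≤ Real.log (((r : ℝ) + 1) ^ 2) := by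
      apply Real.log_le_log (by linarith)
      nlinarith
    rw [Real.log_pow] at h1
    exact_mod_cast h1
  have hL0 : 0 < Real.log (m + 1) := Real.log_pos (by linarith)
  have hX : 0 ≤ D ^ ((1 : ℝ) / r) := by
    by_contra hneg
    push Not at hneg
    have : g * r ≤ 0 := by
      refine hcore.trans ?_
      apply mul_nonpos_of_nonneg_of_nonpos _ hneg.le
      positivity
    nlinarith
  have h1 : g * r ≤ (864 * Real.exp 1 * Real.log ((r : ℝ) + 1) * D ^ ((1 : ℝ) / r)) * r := by
    calc g * r ≤ 144 * Real.exp 1 * m * Real.log (m + 1) * D ^ ((1 : ℝ) / r) := hcore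
      _ ≤ 144 * Real.exp 1 * (3 * r) * (2 * Real.log ((r : ℝ) + 1)) * D ^ ((1 : ℝ) / r) := by
          apply mul_le_mul_of_nonneg_right _ hX
          apply mul_le_mul _ hlog hL0.le (by positivity)
          apply mul_le_mul_of_nonneg_left hm3' (by positivity)
      _ = _ := by ring
  exact le_of_mul_le_mul_right h1 (by linarith)

lemma sum_split {E : Type} [Fintype E] [DecidableEq E] {M : Type} [AddCommMonoid M] (f : E)
    (F : E → M) : ∑ g, F g = F f + ∑ g : {g : E // g ≠ f}, F g.1 :=
  Fintype.sum_eq_add_sum_subtype_ne F f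

/-- deleting a pendant edge -/
lemma good_delete {C : ℝ} {E : Type} [Fintype E] [DecidableEq E] {s t : E → V} {w : E → ℝ}
    {v : V} {e : E} (hv : nb s t v = {e})
    (h : Good C (FA (fun g : {g : E // g ≠ e} => s g.1) (fun g => t g.1) univ)
      (fun g => w g.1)) : Good C (FA s t univ) w := by
  have hne : inc s t e v ≠ 0 := by
    have : e ∈ nb s t v := by rw [hv]; exact mem_singleton_self _
    exact (mem_filter.1 this).2
  have hother : ∀ g, g ≠ e → inc s t g v = 0 := by
    intro g hg
    by_contra h0
    have : g ∈ nb s t v := by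
      rw [nb, mem_filter]
      exact ⟨mem_univ _, h0⟩
    rw [hv, mem_singleton] at this
    exact hg this
  have hzero : ∀ x ∈ FA s t (univ : Finset E), x e = 0 := by
    intro x hx
    have h1 : ∑ g, x g * inc s t g v = 0 := congrFun hx.2 v
    rw [Finset.sum_eq_single e (fun g _ hg => by rw [hother g hg, mul_zero])
      (fun h' => absurd (mem_univ _) h')] at h1
    exact (mul_eq_zero.1 h1).resolve_right hne
  have hbd : ∀ x : E → ℤ, x e = 0 → ∀ u,
      bd (fun g : {g : E // g ≠ e} => s g.1) (fun g => t g.1) (fun g => x g.1) u =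
        bd s t x u := by
    intro x hx u
    rw [bd_apply, bd_apply, sum_split e (fun g => x g * inc s t g u), hx, zero_mul, zero_add]
    rfl
  refine good_transfer (LinearMap.funLeft ℤ ℤ (Subtype.val : {g : E // g ≠ e} → E)) ?_ ?_ ?_ ?_ h
  · intro x hx
    refine ⟨fun g hg => absurd (mem_univ _) hg, ?_⟩
    funext u
    have h1 := hbd x (hzero x hx) u
    have h2 : bd s t x u = 0 := congrFun hx.2 u
    rw [h2] at h1
    exact h1
  · intro x hx h0
    funext g
    by_cases hg : g = e
    · rw [hg]; exact hzero x hx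
    · exact congrFun h0 ⟨g, hg⟩
  · intro y hy
    let x : E → ℤ := fun g => if hg : g ≠ e then y ⟨g, hg⟩ else 0
    have hxe : x e = 0 := by simp [x]
    have hxy : (fun g : {g : E // g ≠ e} => x g.1) = y := by
      funext g
      simp [x, g.2]
    refine ⟨x, ⟨fun g hg => absurd (mem_univ _) hg, ?_⟩, hxy⟩
    funext u
    rw [← hbd x hxe u, hxy]
    exact congrFun hy.2 u
  · intro x hx z hz
    rw [sum_split e (fun g => w g * (x g : ℝ) * (z g : ℝ)), hzero x hx]
    simp [LinearMap.funLeft_apply]

lemma inc_cases {E : Type} {s t : E → V} {e : E} {v : V} (h : inc s t e v ≠ 0) :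
    (t e = v ∧ s e ≠ v) ∨ (t e ≠ v ∧ s e = v) := by
  by_cases h1 : t e = v <;> by_cases h2 : s e = v
  · exfalso; apply h; simp [inc, h1, h2]
  · exact Or.inl ⟨h1, h2⟩
  · exact Or.inr ⟨h1, h2⟩
  · exfalso; apply h; simp [inc, h1, h2]

/-- merging two edges at a vertex of degree two -/
lemma good_merge {C : ℝ} {E : Type} [Fintype E] [DecidableEq E] {s t : E → V} {w : E → ℝ}
    {v : V} {e f : E} (hef : e ≠ f) (hv : nb s t v = {e, f})
    (h : ∀ (s' t' : {g : E // g ≠ f} → V), Good C (FA s' t' univ)
      (fun g => w g.1 + if g.1 = e then w f else 0)) : Good C (FA s t univ) w := by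
  have hine : inc s t e v ≠ 0 := by
    have : e ∈ nb s t v := by rw [hv]; simp
    exact (mem_filter.1 this).2
  have hinf : inc s t f v ≠ 0 := by
    have : f ∈ nb s t v := by rw [hv]; simp
    exact (mem_filter.1 this).2
  have hother : ∀ g, g ≠ e → g ≠ f → inc s t g v = 0 := by
    intro g hg hg'
    by_contra h0
    have : g ∈ nb s t v := by
      rw [nb, mem_filter]
      exact ⟨mem_univ _, h0⟩
    rw [hv, mem_insert, mem_singleton] at this
    exact this.elim hg hg'
  let σ : ℤ := - inc s t e v * inc s t f v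
  have hf2 : inc s t f v * inc s t f v = 1 := by
    rcases inc_cases hinf with ⟨h1, h2⟩ | ⟨h1, h2⟩ <;> simp [inc, h1, h2]
  have he2 : inc s t e v * inc s t e v = 1 := by
    rcases inc_cases hine with ⟨h1, h2⟩ | ⟨h1, h2⟩ <;> simp [inc, h1, h2]
  have hσ : σ * σ = 1 := by
    have : σ * σ = (inc s t e v * inc s t e v) * (inc s t f v * inc s t f v) := by
      simp only [σ]; ring
    rw [this, he2, hf2, one_mul]
  have hxf : ∀ x ∈ FA s t (univ : Finset E), x f = σ * x e := by
    intro x hx
    have h1 : ∑ g, x g * inc s t g v = 0 := congrFun hx.2 v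
    rw [sum_split f, ← sum_erase_add univ _ (mem_univ (⟨e, hef⟩ : {g : E // g ≠ f})),
      Finset.sum_eq_zero (s := univ.erase (⟨e, hef⟩ : {g : E // g ≠ f}))] at h1
    · have h2 : x f * (inc s t f v * inc s t f v) = σ * x e := by
        simp only [σ]
        linear_combination (inc s t f v) * h1
      rw [hf2, mul_one] at h2
      exact h2
    · intro g hg
      rw [mem_erase] at hg
      rw [hother g.1 (fun h' => hg.1 (Subtype.ext h')) g.2, mul_zero]
  let c : V := if s f = v then t f else s f
  let s' : {g : E // g ≠ f} → V := fun g => if g.1 = e ∧ s e = v then c else s g.1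
  let t' : {g : E // g ≠ f} → V := fun g => if g.1 = e ∧ t e = v then c else t g.1
  have hinc : ∀ (g : {g : E // g ≠ f}) (u : V), inc s' t' g u =
      inc s t g.1 u + if g.1 = e then σ * inc s t f u else 0 := by
    intro g u
    by_cases hg : g.1 = e
    · rcases inc_cases hine with ⟨h1, h2⟩ | ⟨h1, h2⟩ <;>
        rcases inc_cases hinf with ⟨h3, h4⟩ | ⟨h3, h4⟩ <;>
        simp [inc, s', t', c, σ, hg, h1, h2, h3, h4] <;> ring
    · simp [inc, s', t', hg]
  have hbd : ∀ x : E → ℤ, x f = σ * x e → ∀ u,
      bd s' t' (fun g => x g.1) u = bd s t x u := by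
    intro x hx u
    rw [bd_apply, bd_apply, sum_split f (fun g => x g * inc s t g u), hx]
    have h1 : ∀ g : {g : E // g ≠ f}, x g.1 * inc s' t' g u =
        x g.1 * inc s t g.1 u + if g.1 = e then x e * (σ * inc s t f u) else 0 := by
      intro g
      rw [hinc g u, mul_add]
      by_cases hg : g.1 = e
      · rw [if_pos hg, if_pos hg, hg]
      · rw [if_neg hg, if_neg hg, mul_zero]
    rw [sum_congr rfl (fun g _ => h1 g), sum_add_distrib]
    have h2 : ∑ g : {g : E // g ≠ f}, (if g.1 = e then x e * (σ * inc s t f u) else 0) =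
        x e * (σ * inc s t f u) := by
      rw [Finset.sum_eq_single (⟨e, hef⟩ : {g : E // g ≠ f})]
      · rw [if_pos rfl]
      · intro g _ hg
        rw [if_neg (fun h' => hg (Subtype.ext h'))]
      · intro h'; exact absurd (mem_univ _) h'
    rw [h2]
    ring
  refine good_transfer (LinearMap.funLeft ℤ ℤ (Subtype.val : {g : E // g ≠ f} → E)) ?_ ?_ ?_ ?_
    (h s' t')
  · intro x hx
    refine ⟨fun g hg => absurd (mem_univ _) hg, ?_⟩
    funext u
    have h1 := hbd x (hxf x hx) u
    have h2 : bd s t x u = 0 := congrFun hx.2 u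
    rw [h2] at h1
    exact h1
  · intro x hx h0
    have h1 : ∀ g, g ≠ f → x g = 0 := fun g hg => congrFun h0 ⟨g, hg⟩
    funext g
    by_cases hg : g = f
    · rw [hg, hxf x hx, h1 e hef, mul_zero]
      rfl
    · exact h1 g hg
  · intro y hy
    let x : E → ℤ := fun g => if hg : g ≠ f then y ⟨g, hg⟩ else σ * y ⟨e, hef⟩
    have hxe : x f = σ * x e := by simp [x, hef]
    have hxy : (fun g : {g : E // g ≠ f} => x g.1) = y := by
      funext g
      simp [x, g.2]
    refine ⟨x, ⟨fun g hg => absurd (mem_univ _) hg, ?_⟩, hxy⟩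
    funext u
    rw [← hbd x hxe u, hxy]
    exact congrFun hy.2 u
  · intro x hx z hz
    rw [sum_split f (fun g => w g * (x g : ℝ) * (z g : ℝ)), hxf x hx, hxf z hz]
    have h1 : ∀ g : {g : E // g ≠ f}, (w g.1 + if g.1 = e then w f else 0) *
        (LinearMap.funLeft ℤ ℤ (Subtype.val : {g : E // g ≠ f} → E) x g : ℝ) *
        (LinearMap.funLeft ℤ ℤ (Subtype.val : {g : E // g ≠ f} → E) z g : ℝ) =
        w g.1 * (x g.1 : ℝ) * (z g.1 : ℝ) +
          if g.1 = e then w f * (x e : ℝ) * (z e : ℝ) else 0 := by
      intro g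
      rw [LinearMap.funLeft_apply, LinearMap.funLeft_apply]
      by_cases hg : g.1 = e
      · rw [if_pos hg, if_pos hg, hg]; ring
      · rw [if_neg hg, if_neg hg]; ring
    rw [sum_congr rfl (fun g _ => h1 g), sum_add_distrib]
    have h2 : ∑ g : {g : E // g ≠ f}, (if g.1 = e then w f * (x e : ℝ) * (z e : ℝ) else 0) =
        w f * (x e : ℝ) * (z e : ℝ) := by
      rw [Finset.sum_eq_single (⟨e, hef⟩ : {g : E // g ≠ f})]
      · rw [if_pos rfl]
      · intro g _ hg
        rw [if_neg (fun h' => hg (Subtype.ext h'))]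
      · intro h'; exact absurd (mem_univ _) h'
    rw [h2]
    have h3 : (σ : ℝ) * σ = 1 := by exact_mod_cast hσ
    push_cast
    linear_combination (w f * (x e : ℝ) * (z e : ℝ)) * h3

/-- **Short flows.** -/
theorem good_all : ∀ (n : ℕ) (E : Type) [Fintype E] [DecidableEq E], Fintype.card E = n →
    ∀ (s t : E → V) (w : E → ℝ), (∀ e, 0 < w e) →
      Good (864 * Real.exp 1) (FA s t univ) w := by
  intro n
  induction n with
  | zero =>
    intro E _ _ hE s t w hw
    intro r b hr
    exfalso
    have h1 := finrank_FA_le s t (univ : Finset E)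
    rw [Module.finrank_eq_card_basis b, Fintype.card_fin, card_univ] at h1
    omega
  | succ n ih =>
    intro E _ _ hE s t w hw
    by_cases hred : ∀ v, (nb s t v).card ≠ 1 ∧ (nb s t v).card ≠ 2
    · exact good_of_reduced hw hred
    · push Not at hred
      obtain ⟨v, hv⟩ := hred
      by_cases hv1 : (nb s t v).card = 1
      · obtain ⟨e, he⟩ := card_eq_one.1 hv1
        apply good_delete he
        apply ih
        · rw [Fintype.card_subtype_compl, Fintype.card_subtype_eq]
          omega
        · intro g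
          exact hw _
      · obtain ⟨e, f, hef, he⟩ := card_eq_two.1 (hv hv1)
        apply good_merge hef he
        intro s' t'
        apply ih
        · rw [Fintype.card_subtype_compl, Fintype.card_subtype_eq]
          omega
        · intro g
          have h1 := hw g.1
          have h2 := hw f
          split_ifs <;> linarith

end Pool.Agent.helper275_flow
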